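import Pool.Agent.Lib.MP_e04167_ag.Genus

/-!
# The plane curve `d² t^e (a² - 4 t^d) = 1`
-/

open Polynomial

namespace Pool.Agent.MP_e04167_ag

/-- The equation `d² t^e (a² - 4 t^d) - 1`, in the coordinates `a = X 0`, `t = X 1`. -/
noncomputable def curveEq (d e : ℕ) : MvPolynomial (Fin 2) ℂ :=
  MvPolynomial.C ((d : ℂ) ^ 2) * MvPolynomial.X 1 ^ e *
    (MvPolynomial.X 0 ^ 2 - MvPolynomial.C 4 * MvPolynomial.X 1 ^ d) - 1

/-- `ℂ[a,t] ≃ ℂ[t][a]` -/
noncomputable def bivar : MvPolynomial (Fin 2) ℂ ≃ₐ[ℂ] ℂ[X][X] :=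
  (MvPolynomial.finSuccEquiv ℂ 1).trans
    (Polynomial.mapAlgEquiv (MvPolynomial.uniqueAlgEquiv ℂ (Fin 1)))

lemma bivar_X0 : bivar (MvPolynomial.X 0) = X := by
  simp [bivar, MvPolynomial.finSuccEquiv_X_zero]

lemma bivar_X1 : bivar (MvPolynomial.X 1) = C X := by
  have h1 : MvPolynomial.finSuccEquiv ℂ 1 (MvPolynomial.X 1) = C (MvPolynomial.X 0) :=
    MvPolynomial.finSuccEquiv_X_succ (j := 0)
  simp [bivar, h1]

lemma bivar_C (c : ℂ) : bivar (MvPolynomial.C c) = C (C c) := by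
  have := bivar.commutes c
  simpa using this

/-- the coefficient polynomials -/
noncomputable def polM (d e : ℕ) : ℂ[X] := C ((d : ℂ) ^ 2) * X ^ e
noncomputable def polN (d e : ℕ) : ℂ[X] := C (4 * (d : ℂ) ^ 2) * X ^ (d + e) + 1

lemma bivar_curveEq (d e : ℕ) :
    bivar (curveEq d e) = C (polM d e) * X ^ 2 - C (polN d e) := by
  unfold curveEq polM polN
  simp only [map_sub, map_mul, map_pow, bivar_X0, bivar_X1, bivar_C, map_ofNat, map_one, map_add]
  ring

/-- The parameters allowed. -/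
structure Good (d e : ℕ) : Prop where
  hd : 2 ≤ d
  he : 1 ≤ e
  par : (Even e ∧ Odd d) ∨ (Odd e ∧ Even d)

variable {d e : ℕ}

lemma Good.d_ne (h : Good d e) : (d : ℂ) ≠ 0 := Nat.cast_ne_zero.mpr (by have := h.hd; omega)

lemma polM_ne (h : Good d e) : polM d e ≠ 0 := by
  unfold polM
  exact mul_ne_zero (C_ne_zero.mpr (pow_ne_zero 2 h.d_ne)) (pow_ne_zero _ X_ne_zero)

lemma natDegree_polM (h : Good d e) : (polM d e).natDegree = e := by
  exact natDegree_C_mul_X_pow _ _ (pow_ne_zero 2 h.d_ne)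

lemma natDegree_polN (h : Good d e) : (polN d e).natDegree = d + e := by
  unfold polN
  have h1 : (4 * (d : ℂ) ^ 2) ≠ 0 := mul_ne_zero (by norm_num) (pow_ne_zero 2 h.d_ne)
  have h2 := h.hd
  rw [natDegree_add_eq_left_of_natDegree_lt]
  · exact natDegree_C_mul_X_pow _ _ h1
  · rw [natDegree_C_mul_X_pow _ _ h1, natDegree_one]; omega

lemma natTrailingDegree_polM (h : Good d e) : (polM d e).natTrailingDegree = e := by
  unfold polM
  rw [natTrailingDegree_mul (C_ne_zero.mpr (pow_ne_zero 2 h.d_ne)) (pow_ne_zero _ X_ne_zero),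
    natTrailingDegree_C, natTrailingDegree_X_pow, zero_add]

lemma polN_ne (h : Good d e) : polN d e ≠ 0 := by
  intro h0
  have h1 := natDegree_polN h
  have h2 := h.hd
  rw [h0] at h1
  simp at h1
  omega

lemma natTrailingDegree_polN (h : Good d e) : (polN d e).natTrailingDegree = 0 := by
  apply natTrailingDegree_eq_zero.mpr
  right
  have := h.hd
  unfold polN
  simp only [coeff_add, coeff_C_mul, coeff_X_pow, coeff_one, if_true]
  rw [if_neg (by omega)]
  simp

/-- `N / M` is not a square in `ℂ(t)` -/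
lemma nonsq_NM (h : Good d e) (p q : ℂ[X]) (hpq : p ^ 2 * polM d e = q ^ 2 * polN d e) :
    p = 0 ∧ q = 0 := by
  have hM := polM_ne h
  have hN := polN_ne h
  by_cases hp : p = 0
  · refine ⟨hp, ?_⟩
    rw [hp, zero_pow two_ne_zero, zero_mul] at hpq
    by_contra hq
    exact mul_ne_zero (pow_ne_zero 2 hq) hN hpq.symm
  · exfalso
    have hq : q ≠ 0 := by
      rintro rfl
      rw [zero_pow two_ne_zero, zero_mul] at hpq
      exact mul_ne_zero (pow_ne_zero 2 hp) hM hpq
    rcases h.par with ⟨h1, h2⟩ | ⟨h1, h2⟩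
    · have e1 := congrArg natDegree hpq
      rw [natDegree_mul (pow_ne_zero 2 hp) hM, natDegree_mul (pow_ne_zero 2 hq) hN, natDegree_pow,
        natDegree_pow, natDegree_polM h, natDegree_polN h] at e1
      obtain ⟨k, hk⟩ := h1
      obtain ⟨l, hl⟩ := h2
      omega
    · have e1 := congrArg natTrailingDegree hpq
      rw [natTrailingDegree_mul (pow_ne_zero 2 hp) hM, natTrailingDegree_mul (pow_ne_zero 2 hq) hN,
        sq, sq, natTrailingDegree_mul hp hp, natTrailingDegree_mul hq hq,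
        natTrailingDegree_polM h, natTrailingDegree_polN h] at e1
      obtain ⟨k, hk⟩ := h1
      omega

lemma coprime_MN (d e : ℕ) : IsCoprime (polM d e) (polN d e) := by
  refine ⟨- 4 * X ^ d, 1, ?_⟩
  unfold polM polN
  rw [C_mul]
  rw [show (C (4 : ℂ) : ℂ[X]) = 4 from C_ofNat 4, pow_add]
  ring

lemma irreducible_bivar (h : Good d e) :
    Irreducible (C (polM d e) * X ^ 2 - C (polN d e) : ℂ[X][X]) := by
  set f : ℂ[X][X] := C (polM d e) * X ^ 2 - C (polN d e) with hf
  have hM := polM_ne h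
  have hprim : f.IsPrimitive := by
    intro r hr
    rw [C_dvd_iff_dvd_coeff] at hr
    have h2 := hr 2
    have h0 := hr 0
    simp only [hf, coeff_sub, coeff_C_mul, coeff_X_pow, coeff_C, if_true] at h2 h0
    norm_num at h2 h0
    exact (coprime_MN d e).isUnit_of_dvd' h2 h0
  rw [hprim.irreducible_iff_irreducible_map_fraction_map (K := FractionRing ℂ[X])]
  have hmap : f.map (algebraMap ℂ[X] (FractionRing ℂ[X])) =
      C (algebraMap ℂ[X] (FractionRing ℂ[X]) (polM d e)) * X ^ 2 -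
        C (algebraMap ℂ[X] (FractionRing ℂ[X]) (polN d e)) := by
    rw [hf]; simp
  have hM' : algebraMap ℂ[X] (FractionRing ℂ[X]) (polM d e) ≠ 0 := by
    rw [Ne, FaithfulSMul.algebraMap_eq_zero_iff]; exact hM
  rw [hmap]
  apply irreducible_of_degree_le_three_of_not_isRoot
  · have : (C (algebraMap ℂ[X] (FractionRing ℂ[X]) (polM d e)) * X ^ 2 -
        C (algebraMap ℂ[X] (FractionRing ℂ[X]) (polN d e))).natDegree = 2 := by
      compute_degree!
    rw [this]; simp
  · intro x hx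
    obtain ⟨p, q, hq, rfl⟩ := IsFractionRing.div_surjective (A := ℂ[X]) x
    have hq0 : q ≠ 0 := nonZeroDivisors.ne_zero hq
    have hq' : algebraMap ℂ[X] (FractionRing ℂ[X]) q ≠ 0 := by
      rw [Ne, FaithfulSMul.algebraMap_eq_zero_iff]; exact hq0
    rw [IsRoot.def] at hx
    simp only [eval_sub, eval_mul, eval_C, eval_pow, eval_X] at hx
    have e1 : algebraMap ℂ[X] (FractionRing ℂ[X]) (p ^ 2 * polM d e) =
        algebraMap ℂ[X] (FractionRing ℂ[X]) (q ^ 2 * polN d e) := by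
      simp only [map_mul, map_pow]
      field_simp at hx
      linear_combination hx
    have e2 := IsFractionRing.injective ℂ[X] (FractionRing ℂ[X]) e1
    exact hq0 (nonsq_NM h p q e2).2

lemma irreducible_curveEq (h : Good d e) : Irreducible (curveEq d e) := by
  rw [← MulEquiv.irreducible_iff bivar, bivar_curveEq]
  exact irreducible_bivar h

lemma span_prime (h : Good d e) : (Ideal.span {curveEq d e}).IsPrime :=
  (Ideal.span_singleton_prime (irreducible_curveEq h).ne_zero).mpr (irreducible_curveEq h).prime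

/-! ### Non-singularity -/

lemma eval_curveEq (d e : ℕ) (p : Fin 2 → ℂ) :
    MvPolynomial.eval p (curveEq d e) = (d : ℂ) ^ 2 * p 1 ^ e * (p 0 ^ 2 - 4 * p 1 ^ d) - 1 := by
  simp [curveEq]

lemma eval_pderiv0 (d e : ℕ) (p : Fin 2 → ℂ) :
    MvPolynomial.eval p (MvPolynomial.pderiv 0 (curveEq d e)) =
      (d : ℂ) ^ 2 * p 1 ^ e * (2 * p 0) := by
  obtain ⟨c, hc⟩ : ∃ c, c = (d : ℂ) ^ 2 := ⟨_, rfl⟩
  obtain ⟨f, hf⟩ : ∃ f, f = (4 : ℂ) := ⟨_, rfl⟩
  rw [curveEq, ← hc, ← hf]
  simp only [map_sub, MvPolynomial.pderiv_mul, MvPolynomial.pderiv_pow,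
    MvPolynomial.pderiv_C, MvPolynomial.pderiv_one,
    MvPolynomial.pderiv_X_self, MvPolynomial.pderiv_X_of_ne (show (1 : Fin 2) ≠ 0 by decide),
    map_mul, map_pow, map_add, MvPolynomial.eval_X, MvPolynomial.eval_C, map_zero, map_one,
    map_natCast]
  push_cast
  ring

lemma eval_pderiv1 (d e : ℕ) (p : Fin 2 → ℂ) :
    MvPolynomial.eval p (MvPolynomial.pderiv 1 (curveEq d e)) =
      (d : ℂ) ^ 2 * (e * p 1 ^ (e - 1)) * (p 0 ^ 2 - 4 * p 1 ^ d) -
        (d : ℂ) ^ 2 * p 1 ^ e * (4 * (d * p 1 ^ (d - 1))) := by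
  obtain ⟨c, hc⟩ : ∃ c, c = (d : ℂ) ^ 2 := ⟨_, rfl⟩
  obtain ⟨f, hf⟩ : ∃ f, f = (4 : ℂ) := ⟨_, rfl⟩
  rw [curveEq, ← hc, ← hf]
  simp only [map_sub, MvPolynomial.pderiv_mul, MvPolynomial.pderiv_pow,
    MvPolynomial.pderiv_C, MvPolynomial.pderiv_one,
    MvPolynomial.pderiv_X_self, MvPolynomial.pderiv_X_of_ne (show (0 : Fin 2) ≠ 1 by decide),
    map_mul, map_pow, map_add, MvPolynomial.eval_X, MvPolynomial.eval_C, map_zero, map_one,
    map_natCast]
  ring

lemma t_ne_zero (h : Good d e) (p : Fin 2 → ℂ) (hp : MvPolynomial.eval p (curveEq d e) = 0) :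
    p 1 ≠ 0 := by
  rw [eval_curveEq] at hp
  have he := h.he
  intro ht
  rw [ht, zero_pow (by omega)] at hp
  simp at hp

lemma grad_ne (h : Good d e) (p : Fin 2 → ℂ) (hp : MvPolynomial.eval p (curveEq d e) = 0) :
    (fun i => MvPolynomial.eval p (MvPolynomial.pderiv i (curveEq d e))) ≠ 0 := by
  have ht := t_ne_zero h p hp
  rw [eval_curveEq] at hp
  intro h0
  have g0 : MvPolynomial.eval p (MvPolynomial.pderiv 0 (curveEq d e)) = 0 := congrFun h0 0
  have g1 : MvPolynomial.eval p (MvPolynomial.pderiv 1 (curveEq d e)) = 0 := congrFun h0 1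
  rw [eval_pderiv0] at g0
  rw [eval_pderiv1] at g1
  have hd := h.d_ne
  have he := h.he
  have hd2 := h.hd
  have hde : ((e : ℂ) + d) ≠ 0 := by
    rw [← Nat.cast_add]; exact Nat.cast_ne_zero.mpr (by omega)
  obtain ⟨m, rfl⟩ : ∃ m, e = m + 1 := ⟨e - 1, by omega⟩
  obtain ⟨l, rfl⟩ : ∃ l, d = l + 1 := ⟨d - 1, by omega⟩
  have ha : p 0 = 0 := by
    have h2 : ((l + 1 : ℕ) : ℂ) ^ 2 * p 1 ^ (m + 1) ≠ 0 :=
      mul_ne_zero (pow_ne_zero 2 hd) (pow_ne_zero _ ht)
    have := (mul_eq_zero.mp g0).resolve_left h2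
    exact (mul_eq_zero.mp this).resolve_left two_ne_zero
  rw [ha, Nat.add_sub_cancel, Nat.add_sub_cancel] at g1
  have e1 : - (4 * ((l + 1 : ℕ) : ℂ) ^ 2 * p 1 ^ (m + l + 1) *
      (((m + 1 : ℕ) : ℂ) + ((l + 1 : ℕ) : ℂ))) = 0 := by
    rw [← g1]; ring
  rw [neg_eq_zero] at e1
  exact (mul_ne_zero (mul_ne_zero (mul_ne_zero (by norm_num) (pow_ne_zero 2 hd))
    (pow_ne_zero _ ht)) hde) e1

lemma finrank_grad (h : Good d e) (p : Fin 2 → ℂ)
    (hp : ∀ F ∈ Ideal.span {curveEq d e}, MvPolynomial.eval p F = 0) :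
    Module.finrank ℂ (Submodule.span ℂ {v : Fin 2 → ℂ | ∃ F ∈ Ideal.span {curveEq d e},
      v = fun i => MvPolynomial.eval p (MvPolynomial.pderiv i F)}) + 1 = 2 := by
  have hp' := hp _ (Ideal.mem_span_singleton_self _)
  set v0 : Fin 2 → ℂ := fun i => MvPolynomial.eval p (MvPolynomial.pderiv i (curveEq d e)) with hv0
  have e1 : Submodule.span ℂ {v : Fin 2 → ℂ | ∃ F ∈ Ideal.span {curveEq d e},
      v = fun i => MvPolynomial.eval p (MvPolynomial.pderiv i F)} = Submodule.span ℂ {v0} := by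
    apply le_antisymm
    · rw [Submodule.span_le]
      rintro v ⟨F, hF, rfl⟩
      obtain ⟨G, rfl⟩ := Ideal.mem_span_singleton'.mp hF
      rw [SetLike.mem_coe, Submodule.mem_span_singleton]
      refine ⟨MvPolynomial.eval p G, ?_⟩
      funext i
      rw [Pi.smul_apply, hv0, MvPolynomial.pderiv_mul, map_add, map_mul, map_mul, hp']
      simp
    · rw [Submodule.span_le]
      rintro v hv
      rw [Set.mem_singleton_iff] at hv
      subst hv
      exact Submodule.subset_span ⟨_, Ideal.mem_span_singleton_self _, rfl⟩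
  rw [e1, finrank_span_singleton (grad_ne h p hp')]

/-! ### The coordinate ring and the function field -/

lemma bivar_aeval (p : ℂ[X]) : bivar (aeval (MvPolynomial.X 1) p) = C p := by
  induction p using Polynomial.induction_on' with
  | add p q hp hq => rw [map_add, map_add, hp, hq, map_add]
  | monomial n a =>
    rw [aeval_monomial, map_mul, map_pow, bivar_X1, MvPolynomial.algebraMap_eq, bivar_C,
      ← C_pow, ← C_mul, C_mul_X_pow_eq_monomial]

lemma aeval_mem_span (h : Good d e) (p : ℂ[X])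
    (hp : aeval (MvPolynomial.X 1 : MvPolynomial (Fin 2) ℂ) p ∈ Ideal.span {curveEq d e}) :
    p = 0 := by
  obtain ⟨G, hG⟩ := Ideal.mem_span_singleton'.mp hp
  have e1 := congrArg bivar hG
  rw [map_mul, bivar_aeval, bivar_curveEq] at e1
  by_contra hp0
  have hM := polM_ne h
  have hdeg : (C (polM d e) * X ^ 2 - C (polN d e) : ℂ[X][X]).natDegree = 2 := by
    compute_degree!
  have hne : (C (polM d e) * X ^ 2 - C (polN d e) : ℂ[X][X]) ≠ 0 := by
    intro h0; rw [h0] at hdeg; simp at hdeg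
  have hG0 : bivar G ≠ 0 := by
    intro h0; rw [h0, zero_mul] at e1
    exact hp0 (C_eq_zero.mp e1.symm)
  have e2 := congrArg natDegree e1
  rw [natDegree_mul hG0 hne, hdeg, natDegree_C] at e2
  omega

lemma trans_coord (h : Good d e) :
    Transcendental ℂ (Ideal.Quotient.mk (Ideal.span {curveEq d e}) (MvPolynomial.X 1)) := by
  rw [transcendental_iff]
  intro p hp
  apply aeval_mem_span h
  rw [← Ideal.Quotient.eq_zero_iff_mem]
  rw [← hp]
  have := Polynomial.aeval_algHom_apply (Ideal.Quotient.mkₐ ℂ (Ideal.span {curveEq d e}))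
    (MvPolynomial.X 1) p
  exact this.symm

lemma dim_coord (h : Good d e) :
    ringKrullDim (MvPolynomial (Fin 2) ℂ ⧸ Ideal.span {curveEq d e}) = 1 := by
  have hpr := span_prime h
  apply le_antisymm
  · have h1 := ringKrullDim_quotient_succ_le_of_nonZeroDivisor
      (mem_nonZeroDivisors_of_ne_zero (irreducible_curveEq h).ne_zero)
    rw [MvPolynomial.ringKrullDim_of_isNoetherianRing, ringKrullDim_eq_zero_of_field] at h1
    simp only [Nat.card_eq_fintype_card, Fintype.card_fin, zero_add] at h1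
    have h2 : ((2 : ℕ) : WithBot ℕ∞) = 1 + 1 := by norm_num
    rw [h2] at h1
    exact ENat.WithBot.add_le_add_one_right_iff.mp h1
  · by_contra hlt
    rw [not_le] at hlt
    have h1 : Ring.KrullDimLE 0 (MvPolynomial (Fin 2) ℂ ⧸ Ideal.span {curveEq d e}) := by
      rw [Ring.krullDimLE_iff]
      apply ENat.WithBot.lt_add_one_iff.mp
      rw [Nat.cast_zero, zero_add]
      exact hlt
    have h2 : IsField (MvPolynomial (Fin 2) ℂ ⧸ Ideal.span {curveEq d e}) :=
      Ring.KrullDimLE.isField_of_isDomain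
    let := h2.toField
    have h3 : Module.Finite ℂ (MvPolynomial (Fin 2) ℂ ⧸ Ideal.span {curveEq d e}) :=
      finite_of_finite_type_of_isJacobsonRing _ _
    have h4 : Algebra.IsAlgebraic ℂ (MvPolynomial (Fin 2) ℂ ⧸ Ideal.span {curveEq d e}) :=
      inferInstance
    exact trans_coord h (h4.isAlgebraic _)

/-! ### Fields generated by `a` and `t` -/

section field

variable {K : Type} [Field K] [Algebra ℂ K] {a t : K}

/-- `z ∈ ℂ(t) + ℂ(t) a` -/
def Rep (a t z : K) : Prop :=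
  ∃ p q r : ℂ[X], r ≠ 0 ∧ z * aeval t r = aeval t p + aeval t q * a

lemma Rep.const (c : ℂ) : Rep a t (algebraMap ℂ K c) :=
  ⟨C c, 0, 1, one_ne_zero, by simp⟩

lemma Rep.self_t : Rep a t t := ⟨X, 0, 1, one_ne_zero, by simp⟩

lemma Rep.self_a : Rep a t a := ⟨0, 1, 1, one_ne_zero, by simp⟩

lemma Rep.add {z w : K} (hz : Rep a t z) (hw : Rep a t w) : Rep a t (z + w) := by
  obtain ⟨p, q, r, hr, hz⟩ := hz
  obtain ⟨p', q', r', hr', hw⟩ := hw
  refine ⟨p * r' + p' * r, q * r' + q' * r, r * r', mul_ne_zero hr hr', ?_⟩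
  simp only [map_mul, map_add]
  linear_combination aeval t r' * hz + aeval t r * hw

lemma Rep.mul (h : Good d e) (hM : aeval t (polM d e) * a ^ 2 = aeval t (polN d e)) {z w : K}
    (hz : Rep a t z) (hw : Rep a t w) : Rep a t (z * w) := by
  obtain ⟨p, q, r, hr, hz⟩ := hz
  obtain ⟨p', q', r', hr', hw⟩ := hw
  refine ⟨p * p' * polM d e + q * q' * polN d e, (p * q' + p' * q) * polM d e,
    r * r' * polM d e, mul_ne_zero (mul_ne_zero hr hr') (polM_ne h), ?_⟩
  simp only [map_mul, map_add, ← hM]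
  have e1 : (z * aeval t r) * (w * aeval t r') =
      (aeval t p + aeval t q * a) * (aeval t p' + aeval t q' * a) := by rw [hz, hw]
  linear_combination aeval t (polM d e) * e1

lemma Rep.inv (h : Good d e) (ht : Transcendental ℂ t)
    (hM : aeval t (polM d e) * a ^ 2 = aeval t (polN d e)) {z : K}
    (hz : Rep a t z) : Rep a t z⁻¹ := by
  by_cases hz0 : z = 0
  · rw [hz0, inv_zero]; exact ⟨0, 0, 1, one_ne_zero, by simp⟩
  obtain ⟨p, q, r, hr, hz⟩ := hz
  have hinj : ∀ p : ℂ[X], aeval t p = 0 → p = 0 := fun p hp =>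
    transcendental_iff.mp ht p hp
  have hr' : aeval t r ≠ 0 := fun h0 => hr (hinj r h0)
  have hne : p ^ 2 * polM d e - q ^ 2 * polN d e ≠ 0 := by
    intro h0
    obtain ⟨hp, hq⟩ := nonsq_NM h p q (sub_eq_zero.mp h0)
    rw [hp, hq] at hz
    simp only [map_zero, zero_mul, add_zero] at hz
    rcases mul_eq_zero.mp hz with h1 | h1
    · exact hz0 h1
    · exact hr' h1
  refine ⟨r * p * polM d e, - (r * q * polM d e), p ^ 2 * polM d e - q ^ 2 * polN d e, hne, ?_⟩
  apply mul_left_cancel₀ hz0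
  rw [← mul_assoc, mul_inv_cancel₀ hz0, one_mul]
  simp only [map_sub, map_mul, map_pow, map_neg, ← hM]
  linear_combination (- (aeval t p) * aeval t (polM d e) + aeval t q * a * aeval t (polM d e)) * hz

/-- The genus of a field generated by `a`, `t` with `M(t) a² = N(t)`. -/
theorem genus_field (h : Good d e) {g : ℕ} (hg : 2 * g + 1 = d + e) (ht : Transcendental ℂ t)
    (hM : aeval t (polM d e) * a ^ 2 = aeval t (polN d e)) (gen : ∀ z : K, Rep a t z) :
    genus ℂ K = (g : Cardinal) := by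
  have hd := h.d_ne
  have hd2 := h.hd
  have he := h.he
  have hdK : (algebraMap ℂ K d) ≠ 0 := by
    rw [Ne, FaithfulSMul.algebraMap_eq_zero_iff]; exact hd
  have ht0 : t ≠ 0 := T_ne_zero ht
  have h4 : (4 * (d : ℂ) ^ 2) ≠ 0 := mul_ne_zero (by norm_num) (pow_ne_zero 2 hd)
  have hM' : (algebraMap ℂ K d) ^ 2 * t ^ e * a ^ 2 =
      algebraMap ℂ K (4 * d ^ 2) * t ^ (d + e) + 1 := by
    simpa [polM, polN] using hM
  rcases h.par with ⟨h1, h2⟩ | ⟨h1, h2⟩
  · -- `e` even
    obtain ⟨m, rfl⟩ : ∃ m, e = 2 * m := by obtain ⟨m, hm⟩ := h1; exact ⟨m, by omega⟩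
    set y : K := algebraMap ℂ K d * t ^ m * a with hy
    have hy2 : y ^ 2 = algebraMap ℂ K (4 * d ^ 2) * t ^ (2 * g + 1) + 1 := by
      rw [hg, ← hM', hy]; ring
    have genY : ∀ z : K, ∃ p q r : ℂ[X], r ≠ 0 ∧ z * aeval t r = aeval t p + aeval t q * y := by
      intro z
      obtain ⟨p, q, r, hr, hz⟩ := gen z
      refine ⟨p * (C (d : ℂ) * X ^ m), q, r * (C (d : ℂ) * X ^ m),
        mul_ne_zero hr (mul_ne_zero (C_ne_zero.mpr hd) (pow_ne_zero _ X_ne_zero)), ?_⟩
      simp only [map_mul, map_pow, aeval_X, aeval_C, hy]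
      linear_combination (algebraMap ℂ K d * t ^ m) * hz
    have hY2 : (y * t⁻¹ ^ (g + 1)) ^ 2 =
        algebraMap ℂ K 1 * t⁻¹ ^ (2 * g + 2) + algebraMap ℂ K (4 * d ^ 2) * t⁻¹ := by
      rw [mul_pow, hy2]
      simp only [inv_pow, map_one]
      field_simp
      ring
    exact genus_eq (g := g) (by omega) one_ne_zero h4 (transcendental_inv ht) hY2
      (gen_inv ht0 (g + 1) genY)
  · -- `e` odd
    obtain ⟨m, rfl⟩ : ∃ m, e = 2 * m + 1 := by obtain ⟨m, hm⟩ := h1; exact ⟨m, by omega⟩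
    set y : K := algebraMap ℂ K d * t ^ (m + 1) * a with hy
    have hy2 : y ^ 2 = algebraMap ℂ K (4 * d ^ 2) * t ^ (2 * g + 2) + algebraMap ℂ K 1 * t := by
      have : y ^ 2 = t * ((algebraMap ℂ K d) ^ 2 * t ^ (2 * m + 1) * a ^ 2) := by rw [hy]; ring
      rw [this, hM', show 2 * g + 2 = (d + (2 * m + 1)) + 1 by omega]
      simp only [map_one]
      ring
    have genY : ∀ z : K, ∃ p q r : ℂ[X], r ≠ 0 ∧ z * aeval t r = aeval t p + aeval t q * y := by
      intro z
      obtain ⟨p, q, r, hr, hz⟩ := gen z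
      refine ⟨p * (C (d : ℂ) * X ^ (m + 1)), q, r * (C (d : ℂ) * X ^ (m + 1)),
        mul_ne_zero hr (mul_ne_zero (C_ne_zero.mpr hd) (pow_ne_zero _ X_ne_zero)), ?_⟩
      simp only [map_mul, map_pow, aeval_X, aeval_C, hy]
      linear_combination (algebraMap ℂ K d * t ^ (m + 1)) * hz
    exact genus_eq (g := g) (by omega) h4 one_ne_zero ht hy2 genY

end field

/-- The function field of the curve. -/
theorem genus_curve (h : Good d e) {g : ℕ} (hg : 2 * g + 1 = d + e)
    [(Ideal.span {curveEq d e}).IsPrime] :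
    genus ℂ (FractionRing (MvPolynomial (Fin 2) ℂ ⧸ Ideal.span {curveEq d e})) =
      (g : Cardinal) := by
  set A := MvPolynomial (Fin 2) ℂ ⧸ Ideal.span {curveEq d e} with hA
  let ψ : MvPolynomial (Fin 2) ℂ →ₐ[ℂ] FractionRing A :=
    (IsScalarTower.toAlgHom ℂ A (FractionRing A)).comp (Ideal.Quotient.mkₐ ℂ _)
  have hψ0 : ψ (curveEq d e) = 0 := by
    change algebraMap A (FractionRing A) (Ideal.Quotient.mk _ (curveEq d e)) = 0
    rw [Ideal.Quotient.eq_zero_iff_mem.mpr (Ideal.mem_span_singleton_self _), map_zero]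
  have ht : Transcendental ℂ (ψ (MvPolynomial.X 1)) := by
    have h1 := trans_coord h
    change Transcendental ℂ (algebraMap A (FractionRing A) (Ideal.Quotient.mk _ (MvPolynomial.X 1)))
    exact (transcendental_algebraMap_iff (IsFractionRing.injective A (FractionRing A))).mpr h1
  have hM : aeval (ψ (MvPolynomial.X 1)) (polM d e) * (ψ (MvPolynomial.X 0)) ^ 2 =
      aeval (ψ (MvPolynomial.X 1)) (polN d e) := by
    simp only [curveEq, map_sub, map_mul, map_pow, map_one] at hψ0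
    have hC : ∀ c : ℂ, ψ (MvPolynomial.C c) = algebraMap ℂ (FractionRing A) c := fun c =>
      ψ.commutes c
    rw [hC, hC] at hψ0
    simp only [polM, polN, map_mul, map_add, map_pow, aeval_C, aeval_X, map_one]
    rw [pow_add]
    linear_combination hψ0
  refine genus_field h hg ht hM ?_
  have hpoly : ∀ G : MvPolynomial (Fin 2) ℂ,
      Rep (ψ (MvPolynomial.X 0)) (ψ (MvPolynomial.X 1)) (ψ G) := by
    intro G
    induction G using MvPolynomial.induction_on with
    | C c =>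
      have : ψ (MvPolynomial.C c) = algebraMap ℂ (FractionRing A) c := ψ.commutes c
      rw [this]; exact Rep.const c
    | add p q hp hq => rw [map_add]; exact hp.add hq
    | mul_X p n hp =>
      rw [map_mul]
      refine Rep.mul h hM hp ?_
      fin_cases n
      · exact Rep.self_a
      · exact Rep.self_t
  intro z
  obtain ⟨x, y, hy, rfl⟩ := IsFractionRing.div_surjective (A := A) z
  obtain ⟨x, rfl⟩ := Ideal.Quotient.mk_surjective x
  obtain ⟨y, rfl⟩ := Ideal.Quotient.mk_surjective y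
  rw [div_eq_mul_inv]
  exact Rep.mul h hM (hpoly x) (Rep.inv h ht hM (hpoly y))

/-- The curve as an `AffineCurve`. -/
noncomputable def theCurve (h : Good d e) : AffineCurve 2 where
  ideal := Ideal.span {curveEq d e}
  prime := span_prime h
  dim_eq_one := dim_coord h
  nonsingular := fun p hp => finrank_grad h p hp

lemma genus_theCurve (h : Good d e) {g : ℕ} (hg : 2 * g + 1 = d + e) :
    (theCurve h).genus = (g : Cardinal) := by
  unfold AffineCurve.genus
  exact @genus_curve d e h g hg (theCurve h).prime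

lemma mem_points (h : Good d e) {p : Fin 2 → ℂ} (hp : p ∈ (theCurve h).points) :
    (d : ℂ) ^ 2 * p 1 ^ e * (p 0 ^ 2 - 4 * p 1 ^ d) = 1 := by
  have := hp _ (Ideal.mem_span_singleton_self _)
  rw [eval_curveEq] at this
  linear_combination this

lemma mem_points_of (h : Good d e) {p : Fin 2 → ℂ}
    (hp : (d : ℂ) ^ 2 * p 1 ^ e * (p 0 ^ 2 - 4 * p 1 ^ d) = 1) : p ∈ (theCurve h).points := by
  intro F hF
  obtain ⟨G, rfl⟩ := Ideal.mem_span_singleton'.mp hF
  rw [map_mul, eval_curveEq, hp, sub_self, mul_zero]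

/-- For every `t ≠ 0` there is a point over `t`. -/
lemma exists_point (h : Good d e) {t : ℂ} (ht : t ≠ 0) :
    ∃ p ∈ (theCurve h).points, p 1 = t := by
  obtain ⟨a, ha⟩ := IsAlgClosed.exists_pow_nat_eq
    (((d : ℂ) ^ 2 * t ^ e)⁻¹ + 4 * t ^ d) (n := 2) (by norm_num)
  refine ⟨![a, t], mem_points_of h ?_, by simp⟩
  have hd := h.d_ne
  simp only [Matrix.cons_val_zero, Matrix.cons_val_one]
  rw [ha]
  field_simp
  ring

end Pool.Agent.MP_e04167_ag
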