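import Mathlib

/-!
# Definitions for the low-genus curves in `SG_n`
-/

open Polynomial Topology

namespace Pool.Agent.MP_e04167_ag

/-! ### The genus of a function field -/

/-- For a subset `V` of a field extension `K/k`, `differentialsOf k V` is the set of all finite
sums of differentials `x dy ∈ Ω[K/k]` with `x, y ∈ V`.  When `V ⊇ k` is a valuation ring of a
function field `K/k` in one variable, these are the differentials which are regular at the place
`V` (the image of `Ω[V/k]` in `Ω[K/k]`). -/
noncomputable def differentialsOf (k : Type) {K : Type} [Field k] [Field K] [Algebra k K] (V : Set K) :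
    AddSubgroup (Ω[K⁄k]) :=
  AddSubgroup.closure {η | ∃ x ∈ V, ∃ y ∈ V, η = x • KaehlerDifferential.D k K y}

/-- Let `K` be a field extension of `k` (think of a function field in one variable).
`firstKind k K` is the `k`-vector space of the Kähler differentials `ω ∈ Ω[K/k]` which are regular
at every place of `K/k`, that is, at every valuation ring `V` of `K` that contains `k`.
For a smooth projective curve `X` over `k = ℂ` with function field `K` this is the space
`H⁰(X, Ω_X)` of differentials of the first kind. -/
noncomputable def firstKind (k K : Type) [Field k] [Field K] [Algebra k K] :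
    Submodule k (Ω[K⁄k]) where
  carrier := {ω | ∀ V : ValuationSubring K, (∀ c : k, algebraMap k K c ∈ V) →
    ω ∈ differentialsOf k (V : Set K)}
  zero_mem' := fun _ _ => AddSubgroup.zero_mem _
  add_mem' := fun ha hb V hV => AddSubgroup.add_mem _ (ha V hV) (hb V hV)
  smul_mem' := fun c ω hω V hV => by
    have key : ∀ η ∈ differentialsOf k (V : Set K), c • η ∈ differentialsOf k (V : Set K) := by
      intro η hη
      induction hη using AddSubgroup.closure_induction with
      | mem η hη =>
        obtain ⟨x, hx, y, hy, rfl⟩ := hη
        refine AddSubgroup.subset_closure ⟨algebraMap k K c * x, V.mul_mem _ _ (hV c) hx, y, hy, ?_⟩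
        rw [mul_smul, algebraMap_smul]
      | zero => rw [smul_zero]; exact AddSubgroup.zero_mem _
      | add a b _ _ ha hb => rw [smul_add]; exact AddSubgroup.add_mem _ ha hb
      | neg a _ ha => rw [smul_neg]; exact AddSubgroup.neg_mem _ ha
    exact key ω (hω V hV)

/-- The genus of a function field `K/k` of one variable: the dimension (as a cardinal number) of
the space of its differentials of the first kind. -/
noncomputable def genus (k K : Type) [Field k] [Field K] [Algebra k K] : Cardinal :=
  Module.rank k (firstKind k K)

/-! ### Affine algebraic curves -/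

/-- A connected non-singular affine algebraic curve over `ℂ`, embedded as a closed subvariety of
affine `m`-space and given by its prime ideal. -/
structure AffineCurve (m : ℕ) where
  /-- the ideal of the curve -/
  ideal : Ideal (MvPolynomial (Fin m) ℂ)
  /-- the curve is (reduced and) irreducible; for a non-singular curve this is the same as
  connected -/
  prime : ideal.IsPrime
  /-- its dimension is one -/
  dim_eq_one : ringKrullDim (MvPolynomial (Fin m) ℂ ⧸ ideal) = 1
  /-- Jacobian criterion of non-singularity: at every point `p` of the curve the gradients of the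
  equations of the curve span a space of dimension `m - 1` -/
  nonsingular : ∀ p : Fin m → ℂ, (∀ F ∈ ideal, MvPolynomial.eval p F = 0) →
    Module.finrank ℂ (Submodule.span ℂ {v : Fin m → ℂ | ∃ F ∈ ideal,
      v = fun i => MvPolynomial.eval p (MvPolynomial.pderiv i F)}) + 1 = m

namespace AffineCurve

variable {m : ℕ} (Γ : AffineCurve m)

/-- The set of (closed) points of the curve, a closed complex submanifold of `ℂᵐ`. -/
def points : Set (Fin m → ℂ) := {p | ∀ F ∈ Γ.ideal, MvPolynomial.eval p F = 0}

/-- The genus of the curve: the genus of its function field, that is, of the non-singular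
projective curve which contains the curve as the complement of finitely many points. -/
noncomputable def genus : Cardinal :=
  haveI := Γ.prime
  MP_e04167_ag.genus ℂ (FractionRing (MvPolynomial (Fin m) ℂ ⧸ Γ.ideal))

/-- A map from the curve to `ℂⁿ` is holomorphic if locally it is the restriction of a holomorphic
map on an open subset of `ℂᵐ`. -/
def IsHolomorphic {n : ℕ} (φ : Γ.points → (Fin n → ℂ)) : Prop :=
  ∀ p : Γ.points, ∃ Φ : (Fin m → ℂ) → (Fin n → ℂ),
    AnalyticAt ℂ Φ (p : Fin m → ℂ) ∧ ∀ᶠ q : Γ.points in 𝓝 p, φ q = Φ (q : Fin m → ℂ)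

end AffineCurve

/-! ### The variety `SG_n` -/

/-- `monicPoly n z` is `λⁿ + z₁ λⁿ⁻¹ + ⋯ + zₙ`, where `z_{j+1}` is the coordinate `z j`,
`j : Fin n`. -/
noncomputable def monicPoly (n : ℕ) (z : Fin n → ℂ) : ℂ[X] :=
  X ^ n + ∑ j : Fin n, C (z j) * X ^ (n - 1 - (j : ℕ))

/-- `SG n` is the set of all `z ∈ ℂⁿ` with `z₁ = 0` and discriminant
`∏_{i<j} (rᵢ - rⱼ)² = 1`, where `r₁, …, rₙ` are the roots of `λⁿ + z₁ λⁿ⁻¹ + ⋯ + zₙ`. -/
def SG (n : ℕ) : Set (Fin n → ℂ) :=
  {z | (∀ j : Fin n, (j : ℕ) = 0 → z j = 0) ∧
    ∃ r : Fin n → ℂ, monicPoly n z = ∏ i, (X - C (r i)) ∧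
      ∏ i, ∏ j ∈ Finset.Ioi i, (r i - r j) ^ 2 = 1}

end Pool.Agent.MP_e04167_ag
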