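import Pool.Agent.Lib.MP_e04167_ag.Defs

/-!
# The discriminant of `X ^ (2 d) + a X ^ d + b`
-/

open Polynomial Finset

namespace Pool.Agent.MP_e04167_ag

/-- A monic complex polynomial is a product of linear factors indexed by `Fin n`. -/
lemma exists_roots (P : ℂ[X]) (hP : P.Monic) {n : ℕ} (hn : P.natDegree = n) :
    ∃ r : Fin n → ℂ, P = ∏ i, (X - C (r i)) := by
  have hs : P.Splits := IsAlgClosed.splits P
  have hc : P.roots.card = n := by
    rw [← hn]
    exact (splits_iff_card_roots.mp hs)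
  have h1 := hs.eq_prod_roots_of_monic hP
  obtain ⟨l, hl⟩ := Quotient.exists_rep P.roots
  have hl' : P.roots = (l : Multiset ℂ) := hl.symm
  rw [hl'] at h1 hc
  rw [Multiset.coe_card] at hc
  subst hc
  refine ⟨fun i => l.get i, ?_⟩
  rw [h1, ← List.prod_ofFn, Multiset.map_coe, Multiset.prod_coe]
  congr 1
  apply List.ext_getElem (by simp)
  intro i h1 h2
  simp

lemma prod_pairs {n : ℕ} (r : Fin n → ℂ) :
    ∏ i, eval (r i) (derivative (∏ j, (X - C (r j)))) =
      (∏ i, ∏ j ∈ Ioi i, (r i - r j) ^ 2) * ∏ i : Fin n, ∏ _j ∈ Ioi i, (-1) := by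
  have h1 : ∀ i, eval (r i) (derivative (∏ j, (X - C (r j)))) =
      ∏ j ∈ ({i} : Finset (Fin n))ᶜ, (r i - r j) := by
    intro i
    have := Lagrange.eval_nodal_derivative_eval_node_eq (s := univ) (v := r) (mem_univ i)
    unfold Lagrange.nodal at this
    rw [this, eval_prod]
    have e : (univ : Finset (Fin n)).erase i = {i}ᶜ := by
      ext j; simp
    rw [e]
    simp
  simp only [h1]
  rw [← prod_prod_Ioi_mul_eq_prod_prod_off_diag (fun i j => r j - r i)]
  rw [← prod_mul_distrib]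
  refine prod_congr rfl fun i _ => ?_
  rw [← prod_mul_distrib]
  refine prod_congr rfl fun j _ => ?_
  ring

lemma sign_aux (d : ℕ) (hd : 1 ≤ d) :
    (∏ i : Fin (2 * d), ∏ _j ∈ Ioi i, (-1 : ℂ)) = (-1) ^ d := by
  have h1 : (∏ i : Fin (2 * d), ∏ _j ∈ Ioi i, (-1 : ℂ)) =
      (-1) ^ (∑ i : Fin (2 * d), (2 * d - 1 - (i : ℕ))) := by
    rw [← prod_pow_eq_pow_sum]
    refine prod_congr rfl fun i _ => ?_
    rw [prod_const, Fin.card_Ioi]
  rw [h1, Fin.sum_univ_eq_sum_range (fun i => 2 * d - 1 - i), sum_range_reflect (fun i => i),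
    sum_range_id]
  have h2 : 2 * d * (2 * d - 1) / 2 = d * (2 * d - 1) := by
    rw [mul_assoc, Nat.mul_div_cancel_left _ (by norm_num)]
  rw [h2]
  obtain ⟨m, rfl⟩ : ∃ m, d = m + 1 := ⟨d - 1, by omega⟩
  rw [show (m + 1) * (2 * (m + 1) - 1) = 2 * (m * (m + 1)) + (m + 1) by
    rw [show 2 * (m + 1) - 1 = 2 * m + 1 by omega]; ring]
  rw [pow_add, pow_mul]
  simp

lemma disc_trinomial (d : ℕ) (hd : 1 ≤ d) (a b : ℂ) (r : Fin (2 * d) → ℂ)
    (h : X ^ (2 * d) + C a * X ^ d + C b = ∏ i, (X - C (r i))) :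
    ∏ i, ∏ j ∈ Ioi i, (r i - r j) ^ 2 =
      (d : ℂ) ^ (2 * d) * b ^ (d - 1) * (a ^ 2 - 4 * b) ^ d := by
  have hev : ∀ x : ℂ, x ^ (2 * d) + a * x ^ d + b = ∏ i, (x - r i) := by
    intro x
    have := congrArg (eval x) h
    rw [eval_prod] at this
    simpa using this
  have hroot : ∀ i, (r i) ^ (2 * d) + a * (r i) ^ d + b = 0 := by
    intro i
    rw [hev]
    exact prod_eq_zero (mem_univ i) (sub_self _)
  have hprod : ∏ i, r i = b := by
    have := hev 0
    rw [zero_pow (by omega), zero_pow (by omega)] at this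
    simp only [zero_sub, mul_zero, zero_add, prod_neg] at this
    rw [this]
    simp [pow_mul]
  have hder : ∀ i, eval (r i) (derivative (∏ j, (X - C (r j)))) =
      d * (r i) ^ (d - 1) * (2 * (r i) ^ d + a) := by
    intro i
    rw [← h]
    simp only [derivative_add, derivative_X_pow, derivative_C_mul, derivative_C, eval_add,
      eval_mul, eval_pow, eval_X, eval_C, add_zero, eval_natCast, map_natCast]
    obtain ⟨m, rfl⟩ : ∃ m, d = m + 1 := ⟨d - 1, by omega⟩
    rw [show 2 * (m + 1) - 1 = m + (m + 1) by omega, Nat.add_sub_cancel]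
    push_cast
    ring
  have hP := prod_pairs r
  simp only [hder] at hP
  rw [sign_aux d hd, prod_mul_distrib, prod_mul_distrib, prod_pow, hprod, prod_const] at hP
  simp only [card_univ, Fintype.card_fin] at hP
  have hlast : ∏ i, (2 * (r i) ^ d + a) = (4 * b - a ^ 2) ^ d := by
    obtain ⟨c, hc⟩ := exists_roots (X ^ d + C (a / 2)) (monic_X_pow_add_C _ (by omega)) (n := d)
      (natDegree_X_pow_add_C)
    have hcev : ∀ x : ℂ, x ^ d + a / 2 = ∏ k, (x - c k) := by
      intro x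
      have := congrArg (eval x) hc
      rw [eval_prod] at this
      simpa using this
    have hcroot : ∀ k, (c k) ^ d = - (a / 2) := by
      intro k
      have := hcev (c k)
      rw [prod_eq_zero (mem_univ k) (sub_self _)] at this
      linear_combination this
    have e1 : ∏ i, (2 * (r i) ^ d + a) = 2 ^ (2 * d) * ∏ i, ∏ k, (r i - c k) := by
      rw [show (2 : ℂ) ^ (2 * d) = ∏ i : Fin (2 * d), 2 by simp, ← prod_mul_distrib]
      refine prod_congr rfl fun i _ => ?_
      rw [← hcev]; ring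
    have e2 : ∏ i, ∏ k, (r i - c k) = ∏ k, ∏ i, (c k - r i) := by
      rw [prod_comm]
      refine prod_congr rfl fun k _ => ?_
      have : ∀ i, r i - c k = - (c k - r i) := fun i => by ring
      simp only [this, prod_neg]
      simp [pow_mul]
    have e3 : ∀ k, ∏ i, (c k - r i) = (4 * b - a ^ 2) / 4 := by
      intro k
      rw [← hev, pow_mul', hcroot]; ring
    rw [e1, e2]
    simp only [e3, prod_const, card_univ, Fintype.card_fin]
    rw [div_pow, pow_mul]
    norm_num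
    field_simp
  rw [hlast] at hP
  have hs : ((-1 : ℂ) ^ d) * (-1) ^ d = 1 := by rw [← mul_pow]; simp
  have e4 : (4 * b - a ^ 2) ^ d = (a ^ 2 - 4 * b) ^ d * (-1) ^ d := by
    rw [← mul_pow]; congr 1; ring
  calc ∏ i, ∏ j ∈ Ioi i, (r i - r j) ^ 2
      = ((∏ i, ∏ j ∈ Ioi i, (r i - r j) ^ 2) * (-1) ^ d) * (-1) ^ d := by
        rw [mul_assoc, hs, mul_one]
    _ = (d : ℂ) ^ (2 * d) * b ^ (d - 1) * (a ^ 2 - 4 * b) ^ d * ((-1) ^ d * (-1) ^ d) := by
        rw [← hP, e4]; ring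
    _ = _ := by rw [hs, mul_one]

lemma trinomial_monic_deg (d : ℕ) (hd : 1 ≤ d) (a b : ℂ) :
    (X ^ (2 * d) + C a * X ^ d + C b : ℂ[X]).Monic ∧
    (X ^ (2 * d) + C a * X ^ d + C b : ℂ[X]).natDegree = 2 * d := by
  have hlt : (C a * X ^ d + C b : ℂ[X]).degree < (2 * d : ℕ) := by
    refine lt_of_le_of_lt (b := (d : WithBot ℕ)) ?_ (by exact_mod_cast (by omega : d < 2 * d))
    compute_degree
    exact le_rfl
  rw [add_assoc]
  refine ⟨monic_X_pow_add hlt, ?_⟩
  exact natDegree_eq_of_degree_eq_some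
    (by rw [degree_add_eq_left_of_degree_lt (by rwa [degree_X_pow]), degree_X_pow])

/-- The coordinates of `λ ^ (n - 2 d) (λ ^ (2 d) + a λ ^ d + b)`. -/
noncomputable def trinomialCoeff (n d : ℕ) (a b : ℂ) : Fin n → ℂ :=
  fun j => if (j : ℕ) + 1 = d then a else if (j : ℕ) + 1 = 2 * d then b else 0

lemma monicPoly_trinomial (n d : ℕ) (hd : 2 ≤ d) (hn : 2 * d ≤ n) (a b : ℂ) :
    monicPoly n (trinomialCoeff n d a b) = X ^ n + C a * X ^ (n - d) + C b * X ^ (n - 2 * d) := by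
  unfold monicPoly trinomialCoeff
  have h1 : ∀ j : Fin n, (C (if (j : ℕ) + 1 = d then a else if (j : ℕ) + 1 = 2 * d then b else 0) *
      X ^ (n - 1 - (j : ℕ)) : ℂ[X]) =
      (if j = (⟨d - 1, by omega⟩ : Fin n) then C a * X ^ (n - d) else 0) +
      (if j = (⟨2 * d - 1, by omega⟩ : Fin n) then C b * X ^ (n - 2 * d) else 0) := by
    intro j
    simp only [Fin.ext_iff]
    by_cases h1 : (j : ℕ) + 1 = d
    · have h2 : (j : ℕ) = d - 1 := by omega
      have h3 : ¬ (j : ℕ) = 2 * d - 1 := by omega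
      rw [if_pos h1, if_pos h2, if_neg h3, add_zero]
      congr 2; omega
    · have h2 : ¬ (j : ℕ) = d - 1 := by omega
      rw [if_neg h1, if_neg h2, zero_add]
      by_cases h4 : (j : ℕ) + 1 = 2 * d
      · have h3 : (j : ℕ) = 2 * d - 1 := by omega
        rw [if_pos h4, if_pos h3]
        congr 2; omega
      · have h3 : ¬ (j : ℕ) = 2 * d - 1 := by omega
        rw [if_neg h4, if_neg h3]; simp
  rw [sum_congr rfl (fun j _ => h1 j), sum_add_distrib, sum_ite_eq', sum_ite_eq']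
  simp only [mem_univ, if_true]
  ring

/-- Membership in `SG n`, `n = 2 d` (`e = d - 1`) -/
lemma trinomial_mem_SG_even (d : ℕ) (hd : 2 ≤ d) (a t : ℂ)
    (h : (d : ℂ) ^ 2 * t ^ (d - 1) * (a ^ 2 - 4 * t ^ d) = 1) :
    trinomialCoeff (2 * d) d a (t ^ d) ∈ SG (2 * d) := by
  constructor
  · intro j hj
    unfold trinomialCoeff
    rw [if_neg (by omega), if_neg (by omega)]
  · have e := monicPoly_trinomial (2 * d) d hd le_rfl a (t ^ d)
    rw [Nat.sub_self, pow_zero, mul_one, show 2 * d - d = d by omega] at e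
    rw [e]
    obtain ⟨hm, hdeg⟩ := trinomial_monic_deg d (by omega) a (t ^ d)
    obtain ⟨r, hr⟩ := exists_roots _ hm hdeg
    refine ⟨r, hr, ?_⟩
    rw [disc_trinomial d (by omega) a (t ^ d) r hr]
    have : (d : ℂ) ^ (2 * d) * (t ^ d) ^ (d - 1) * (a ^ 2 - 4 * t ^ d) ^ d =
        ((d : ℂ) ^ 2 * t ^ (d - 1) * (a ^ 2 - 4 * t ^ d)) ^ d := by
      rw [mul_pow, mul_pow, ← pow_mul, ← pow_mul, ← pow_mul, mul_comm d (d - 1)]
    rw [this, h, one_pow]

/-- Membership in `SG n`, `n = 2 d + 1` (`e = d + 1`) -/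
lemma trinomial_mem_SG_odd (d : ℕ) (hd : 2 ≤ d) (a t : ℂ)
    (h : (d : ℂ) ^ 2 * t ^ (d + 1) * (a ^ 2 - 4 * t ^ d) = 1) :
    trinomialCoeff (2 * d + 1) d a (t ^ d) ∈ SG (2 * d + 1) := by
  constructor
  · intro j hj
    unfold trinomialCoeff
    rw [if_neg (by omega), if_neg (by omega)]
  · have e := monicPoly_trinomial (2 * d + 1) d hd (by omega) a (t ^ d)
    rw [show 2 * d + 1 - 2 * d = 1 by omega, pow_one, show 2 * d + 1 - d = d + 1 by omega] at e
    rw [e]
    obtain ⟨hm, hdeg⟩ := trinomial_monic_deg d (by omega) a (t ^ d)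
    obtain ⟨r, hr⟩ := exists_roots _ hm hdeg
    have hprod : ∏ i, r i = t ^ d := by
      have := congrArg (eval 0) hr
      rw [eval_prod] at this
      simp only [eval_add, eval_pow, eval_X, eval_mul, eval_C, eval_sub, zero_sub, prod_neg] at this
      rw [zero_pow (by omega), zero_pow (by omega)] at this
      simp only [mul_zero, zero_add] at this
      rw [this]
      simp [pow_mul]
    refine ⟨Fin.cons 0 r, ?_, ?_⟩
    · rw [Fin.prod_univ_succ]
      simp only [Fin.cons_zero, Fin.cons_succ]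
      rw [← hr]
      simp only [map_zero, sub_zero]
      ring
    · rw [Fin.prod_univ_succ, Fin.prod_Ioi_zero]
      simp only [Fin.prod_Ioi_succ, Fin.cons_zero, Fin.cons_succ]
      rw [disc_trinomial d (by omega) a (t ^ d) r hr]
      have h0 : ∏ j, (0 - r j) ^ 2 = t ^ (2 * d) := by
        have : ∀ j, (0 - r j) ^ 2 = (r j) ^ 2 := fun j => by ring
        simp only [this]
        rw [prod_pow, hprod, ← pow_mul, mul_comm]
      rw [h0]
      have : t ^ (2 * d) * ((d : ℂ) ^ (2 * d) * (t ^ d) ^ (d - 1) * (a ^ 2 - 4 * t ^ d) ^ d) =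
          ((d : ℂ) ^ 2 * t ^ (d + 1) * (a ^ 2 - 4 * t ^ d)) ^ d := by
        obtain ⟨m, rfl⟩ : ∃ m, d = m + 1 := ⟨d - 1, by omega⟩
        rw [Nat.add_sub_cancel]
        rw [mul_pow, mul_pow, ← pow_mul, ← pow_mul, ← pow_mul]
        have e2 : t ^ ((m + 1 + 1) * (m + 1)) = t ^ (2 * (m + 1)) * t ^ ((m + 1) * m) := by
          rw [← pow_add]; congr 1; ring
        rw [e2]; ring
      rw [this, h, one_pow]

end Pool.Agent.MP_e04167_ag
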