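import Pool.Agent.Lib.MP_e04167_ag.Hyperelliptic

/-!
# The genus of the double cover `Y ^ 2 = α T ^ (2 g + 2) + β T`
-/

open Polynomial KaehlerDifferential

namespace Pool.Agent.MP_e04167_ag

variable {k K : Type} [Field k] [Field K] [Algebra k K]

/-- The polynomial at the finite part. -/
noncomputable def finPoly (g : ℕ) (α β : k) : k[X] := C α * X ^ (2 * g + 2) + C β * X
/-- The polynomial at infinity. -/
noncomputable def infPoly (g : ℕ) (α β : k) : k[X] := C α + C β * X ^ (2 * g + 1)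

lemma finPoly_eq (g : ℕ) (α β : k) : finPoly g α β = X * (C β + C α * X ^ (2 * g + 1)) := by
  unfold finPoly; ring

lemma aeval_inv_reflect {T : K} (hT : T ≠ 0) {N : ℕ} {p : k[X]} (hp : p.natDegree ≤ N) :
    aeval T⁻¹ (reflect N p) * T ^ N = aeval T p := by
  have : Invertible T := invertibleOfNonzero hT
  have := eval₂_reflect_mul_pow (algebraMap k K) T N p hp
  rw [invOf_eq_inv] at this
  exact this

lemma aeval_reflect' {T : K} (hT : T ≠ 0) {N : ℕ} {p : k[X]} (hp : p.natDegree ≤ N) :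
    aeval T (reflect N p) = T ^ N * aeval T⁻¹ p := by
  have h := aeval_inv_reflect (k := k) (inv_ne_zero hT) hp
  rw [inv_inv] at h
  rw [← h, inv_pow]
  field_simp

lemma natTrailingDegree_finPoly (g : ℕ) {α β : k} (hβ : β ≠ 0) :
    (finPoly g α β).natTrailingDegree = 1 := by
  have hne : (C β + C α * X ^ (2 * g + 1) : k[X]).coeff 0 ≠ 0 := by
    simp [coeff_C, coeff_X_pow, hβ]
  have h0 : (C β + C α * X ^ (2 * g + 1) : k[X]) ≠ 0 := by
    intro h; rw [h] at hne; simp at hne
  rw [finPoly_eq, natTrailingDegree_mul X_ne_zero h0, natTrailingDegree_X,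
    natTrailingDegree_eq_zero.mpr (Or.inr hne)]

lemma nonsq_fin (g : ℕ) {α β : k} (hβ : β ≠ 0) (p q : k[X])
    (h : p ^ 2 = q ^ 2 * finPoly g α β) : q = 0 := by
  by_contra hq
  have hf : finPoly g α β ≠ 0 := by
    intro h0
    have := natTrailingDegree_finPoly g (α := α) hβ
    rw [h0] at this; simp at this
  have hp : p ≠ 0 := by
    rintro rfl
    rw [zero_pow two_ne_zero] at h
    exact (mul_ne_zero (pow_ne_zero 2 hq) hf) h.symm
  have e := congrArg natTrailingDegree h
  rw [natTrailingDegree_mul (pow_ne_zero 2 hq) hf, sq, sq, natTrailingDegree_mul hp hp,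
    natTrailingDegree_mul hq hq, natTrailingDegree_finPoly g hβ] at e
  omega

lemma natDegree_infPoly (g : ℕ) {α β : k} (hβ : β ≠ 0) :
    (infPoly g α β).natDegree = 2 * g + 1 := by
  unfold infPoly
  compute_degree!

lemma nonsq_inf (g : ℕ) {α β : k} (hβ : β ≠ 0) (p q : k[X])
    (h : p ^ 2 = q ^ 2 * infPoly g α β) : q = 0 := by
  by_contra hq
  have hf : infPoly g α β ≠ 0 := by
    intro h0
    have := natDegree_infPoly g (α := α) hβ
    rw [h0] at this; simp at this
  have hp : p ≠ 0 := by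
    rintro rfl
    rw [zero_pow two_ne_zero] at h
    exact (mul_ne_zero (pow_ne_zero 2 hq) hf) h.symm
  have e := congrArg natDegree h
  rw [natDegree_mul (pow_ne_zero 2 hq) hf, natDegree_pow, natDegree_pow,
    natDegree_infPoly g hβ] at e
  omega

lemma coprime_inf [CharZero k] (g : ℕ) {α β : k} (hα : α ≠ 0) :
    IsCoprime (infPoly g α β) (derivative (infPoly g α β)) := by
  have hd : derivative (infPoly g α β) = C (((2 * g + 1 : ℕ) : k) * β) * X ^ (2 * g) := by
    unfold infPoly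
    simp only [derivative_add, derivative_C, zero_add, derivative_C_mul, derivative_X_pow,
      Nat.add_sub_cancel, C_mul]
    ring
  have hn : (((2 * g + 1 : ℕ) : k)) ≠ 0 := Nat.cast_ne_zero.mpr (by omega)
  refine ⟨C α⁻¹, - C (α⁻¹ * (((2 * g + 1 : ℕ) : k))⁻¹) * X, ?_⟩
  rw [hd]
  unfold infPoly
  have e1 : C α⁻¹ * C α = (1 : k[X]) := by rw [← C_mul, inv_mul_cancel₀ hα, C_1]
  have e2 : C (α⁻¹ * (((2 * g + 1 : ℕ) : k))⁻¹) * C (((2 * g + 1 : ℕ) : k) * β) =
      C α⁻¹ * C β := by
    rw [← C_mul, ← C_mul]; congr 1; field_simp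
  calc C α⁻¹ * (C α + C β * X ^ (2 * g + 1)) + -C (α⁻¹ * (((2 * g + 1 : ℕ) : k))⁻¹) * X *
        (C (((2 * g + 1 : ℕ) : k) * β) * X ^ (2 * g))
      = C α⁻¹ * C α + C α⁻¹ * C β * X ^ (2 * g + 1) -
        (C (α⁻¹ * (((2 * g + 1 : ℕ) : k))⁻¹) * C (((2 * g + 1 : ℕ) : k) * β)) *
          X ^ (2 * g + 1) := by ring
    _ = 1 := by rw [e1, e2]; ring

lemma coprime_fin [CharZero k] (g : ℕ) {α β : k} (hβ : β ≠ 0) :
    IsCoprime (finPoly g α β) (derivative (finPoly g α β)) := by
  have hd : derivative (finPoly g α β) =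
      C (((2 * g + 2 : ℕ) : k) * α) * X ^ (2 * g + 1) + C β := by
    unfold finPoly
    simp only [derivative_add, derivative_C_mul, derivative_X_pow, derivative_X, mul_one, C_mul]
    rw [show 2 * g + 2 - 1 = 2 * g + 1 by omega]
    ring
  have hn : (((2 * g + 1 : ℕ) : k)) ≠ 0 := Nat.cast_ne_zero.mpr (by omega)
  have hd1 : IsCoprime (X : k[X]) (derivative (finPoly g α β)) := by
    rw [hd]
    refine ⟨- C β⁻¹ * (C (((2 * g + 2 : ℕ) : k) * α) * X ^ (2 * g)), C β⁻¹, ?_⟩
    have e1 : C β⁻¹ * C β = (1 : k[X]) := by rw [← C_mul, inv_mul_cancel₀ hβ, C_1]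
    linear_combination e1
  have hd2 : IsCoprime (C β + C α * X ^ (2 * g + 1)) (derivative (finPoly g α β)) := by
    rw [hd]
    refine ⟨C (((2 * g + 2 : ℕ) : k)) * C ((((2 * g + 1 : ℕ) : k))⁻¹ * β⁻¹),
      - C ((((2 * g + 1 : ℕ) : k))⁻¹ * β⁻¹), ?_⟩
    have e3 : C (((2 * g + 2 : ℕ) : k)) = C (((2 * g + 1 : ℕ) : k)) + (1 : k[X]) := by
      rw [← C_1, ← C_add]; congr 1; push_cast; ring
    have e4 : C ((((2 * g + 1 : ℕ) : k))⁻¹ * β⁻¹) * (C (((2 * g + 1 : ℕ) : k)) * C β) =
        (1 : k[X]) := by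
      rw [← C_mul, ← C_mul, ← C_1]; congr 1; field_simp
    rw [C_mul (a := ((2 * g + 2 : ℕ) : k)), e3]
    linear_combination e4
  rw [finPoly_eq] at *
  exact IsCoprime.mul_left hd1 hd2

section main

variable {T Y : K} {g : ℕ} {α β : k}

lemma T_ne_zero (ht : Transcendental k T) : T ≠ 0 := by
  rintro rfl
  exact ht isAlgebraic_zero

/-- the presentation at the finite part -/
lemma doubleCover_fin [CharZero k] (hβ : β ≠ 0)
    (ht : Transcendental k T)
    (hY : Y ^ 2 = algebraMap k K α * T ^ (2 * g + 2) + algebraMap k K β * T)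
    (gen : ∀ z : K, ∃ p q r : k[X], r ≠ 0 ∧ z * aeval T r = aeval T p + aeval T q * Y) :
    DoubleCover k K T Y (finPoly g α β) where
  eq := by rw [hY]; simp [finPoly]
  trans := ht
  nonsq := nonsq_fin g hβ
  sqf := coprime_fin g hβ
  gen := gen

/-- Passing from `(T, Y)` to `(T⁻¹, Y T⁻⁽ᵐ⁾)`. -/
lemma gen_inv (hT : T ≠ 0) (m : ℕ)
    (gen : ∀ z : K, ∃ p q r : k[X], r ≠ 0 ∧ z * aeval T r = aeval T p + aeval T q * Y) :
    ∀ z : K, ∃ p q r : k[X], r ≠ 0 ∧
      z * aeval T⁻¹ r = aeval T⁻¹ p + aeval T⁻¹ q * (Y * T⁻¹ ^ m) := by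
  intro z
  obtain ⟨p, q, r, hr, hz⟩ := gen z
  obtain ⟨N, hp, hq, hr'⟩ : ∃ N, p.natDegree ≤ N ∧ q.natDegree ≤ N ∧ r.natDegree ≤ N :=
    ⟨max p.natDegree (max q.natDegree r.natDegree), by simp, by simp, by simp⟩
  refine ⟨reflect N p * X ^ m, reflect N q, reflect N r * X ^ m, ?_, ?_⟩
  · exact mul_ne_zero (by rwa [Ne, reflect_eq_zero_iff]) (pow_ne_zero _ X_ne_zero)
  · rw [← aeval_inv_reflect hT hp, ← aeval_inv_reflect hT hq, ← aeval_inv_reflect hT hr'] at hz
    have hTN : T ^ N ≠ 0 := pow_ne_zero _ hT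
    have hz' : z * aeval T⁻¹ (reflect N r) =
        aeval T⁻¹ (reflect N p) + aeval T⁻¹ (reflect N q) * Y := by
      apply mul_right_cancel₀ hTN
      linear_combination hz
    rw [map_mul, map_mul, map_pow, aeval_X]
    linear_combination T⁻¹ ^ m * hz'

lemma transcendental_inv (ht : Transcendental k T) : Transcendental k T⁻¹ := by
  intro h
  exact ht (by simpa using h.inv)

/-- the presentation at infinity -/
lemma doubleCover_inf [CharZero k] (hα : α ≠ 0) (hβ : β ≠ 0)
    (ht : Transcendental k T)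
    (hY : Y ^ 2 = algebraMap k K α * T ^ (2 * g + 2) + algebraMap k K β * T)
    (gen : ∀ z : K, ∃ p q r : k[X], r ≠ 0 ∧ z * aeval T r = aeval T p + aeval T q * Y) :
    DoubleCover k K T⁻¹ (Y * T⁻¹ ^ (g + 1)) (infPoly g α β) where
  eq := by
    have hT := T_ne_zero ht
    rw [mul_pow, hY]; simp [infPoly]
    field_simp
    ring
  trans := transcendental_inv ht
  nonsq := nonsq_inf g hβ
  sqf := coprime_inf g hα
  gen := gen_inv (T_ne_zero ht) (g + 1) gen

lemma eta_change (ht : Transcendental k T) (hY0 : Y ≠ 0) (hg : 1 ≤ g) (c : K) :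
    c • (Y⁻¹ • D k K T) =
      (- (c * T⁻¹ ^ (g - 1))) • ((Y * T⁻¹ ^ (g + 1))⁻¹ • D k K T⁻¹) := by
  have hT := T_ne_zero ht
  rw [Derivation.leibniz_inv, smul_smul, smul_smul, smul_smul]
  congr 1
  obtain ⟨m, rfl⟩ : ∃ m, g = m + 1 := ⟨g - 1, by omega⟩
  simp only [Nat.add_sub_cancel, inv_pow]
  field_simp
  ring

theorem firstKind_eq [CharZero k] (hg : 1 ≤ g) (hα : α ≠ 0) (hβ : β ≠ 0)
    (ht : Transcendental k T)
    (hY : Y ^ 2 = algebraMap k K α * T ^ (2 * g + 2) + algebraMap k K β * T)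
    (gen : ∀ z : K, ∃ p q r : k[X], r ≠ 0 ∧ z * aeval T r = aeval T p + aeval T q * Y)
    (ω : Ω[K⁄k]) : ω ∈ firstKind k K ↔
      ∃ p : k[X], p.degree < g ∧ ω = aeval T p • (Y⁻¹ • D k K T) := by
  have h1 := doubleCover_fin (g := g) (α := α) hβ ht hY gen
  have h2 := doubleCover_inf (g := g) hα hβ ht hY gen
  have hT := T_ne_zero ht
  have hY0 := h1.Y_ne_zero
  constructor
  · intro hω
    obtain ⟨c, rfl⟩ := h1.exists_smul_eta ω
    have e1 : ∀ V : ValuationSubring K, (∀ c : k, algebraMap k K c ∈ V) → T ∈ V → c ∈ V := by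
      intro V hV hTV
      obtain ⟨v, hv, e⟩ := h1.span_le V hV hTV (hω V hV)
      have : c = v := by
        by_contra hcv
        have : (c - v) • (Y⁻¹ • D k K T) = 0 := by rw [sub_smul, e, sub_self]
        rcases smul_eq_zero.mp this with h | h
        · exact hcv (sub_eq_zero.mp h)
        · exact h1.eta_ne_zero h
      rw [this]; exact hv
    obtain ⟨p, q, hpq⟩ := h1.exists_of_forall_mem e1
    have e2 : ∀ V : ValuationSubring K, (∀ c : k, algebraMap k K c ∈ V) → T⁻¹ ∈ V →
        - (c * T⁻¹ ^ (g - 1)) ∈ V := by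
      intro V hV hTV
      have hω' := hω V hV
      rw [eta_change ht hY0 hg] at hω'
      obtain ⟨v, hv, e⟩ := h2.span_le V hV hTV hω'
      have : - (c * T⁻¹ ^ (g - 1)) = v := by
        by_contra hcv
        have : (- (c * T⁻¹ ^ (g - 1)) - v) • ((Y * T⁻¹ ^ (g + 1))⁻¹ • D k K T⁻¹) = 0 := by
          rw [sub_smul, e, sub_self]
        rcases smul_eq_zero.mp this with h | h
        · exact hcv (sub_eq_zero.mp h)
        · exact h2.eta_ne_zero h
      rw [this]; exact hv
    obtain ⟨a, b, hab⟩ := h2.exists_of_forall_mem e2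
    obtain ⟨N, ha, hb⟩ : ∃ N, a.natDegree ≤ N ∧ b.natDegree ≤ N :=
      ⟨max a.natDegree b.natDegree, by simp, by simp⟩
    obtain ⟨m, rfl⟩ : ∃ m, g = m + 1 := ⟨g - 1, by omega⟩
    simp only [Nat.add_sub_cancel] at hab
    -- compare
    have hTN : T ^ N ≠ 0 := pow_ne_zero _ hT
    have key : aeval T (X ^ (N + 2) * p) + aeval T (X ^ (N + 2) * q) * Y =
        aeval T (- (X ^ (m + 2) * reflect N a)) + aeval T (- reflect N b) * Y := by
      rw [map_mul, map_mul, map_neg, map_neg, map_mul, map_pow, map_pow, aeval_X,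
        aeval_reflect' hT ha, aeval_reflect' hT hb]
      have e3 : T ^ (N + 2) * c = T ^ (N + 2) * (- (T ^ m * (aeval T⁻¹ a +
          aeval T⁻¹ b * (Y * T⁻¹ ^ (m + 1 + 1))))) := by
        rw [← hab, inv_pow]; field_simp
      rw [hpq] at e3
      have e4 : T ^ (N + 2) * (T ^ m * (aeval T⁻¹ b * (Y * T⁻¹ ^ (m + 1 + 1)))) =
          T ^ N * aeval T⁻¹ b * Y := by
        generalize aeval T⁻¹ b = B
        rw [inv_pow]
        field_simp
        ring
      linear_combination e3 - e4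
    obtain ⟨k1, k2⟩ := h1.uniq key
    have hq : q = 0 := by
      by_contra hq
      have := congrArg natDegree k2
      rw [natDegree_neg, natDegree_mul (pow_ne_zero _ X_ne_zero) hq, natDegree_X_pow] at this
      have h3 := natDegree_reflect_le (N := N) (p := b)
      rw [max_eq_left hb] at h3
      omega
    refine ⟨p, ?_, ?_⟩
    · by_cases hp : p = 0
      · rw [hp, degree_zero]; exact WithBot.bot_lt_coe _
      · rw [degree_eq_natDegree hp]
        have := congrArg natDegree k1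
        rw [natDegree_neg, natDegree_mul (pow_ne_zero _ X_ne_zero) hp, natDegree_X_pow] at this
        have ha0 : reflect N a ≠ 0 := by
          intro h0
          rw [h0, mul_zero, neg_zero] at k1
          exact (mul_ne_zero (pow_ne_zero _ X_ne_zero) hp) k1
        rw [natDegree_mul (pow_ne_zero _ X_ne_zero) ha0, natDegree_X_pow] at this
        have h3 := natDegree_reflect_le (N := N) (p := a)
        rw [max_eq_left ha] at h3
        have : p.natDegree < m + 1 := by omega
        exact_mod_cast this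
    · rw [hpq, hq]; simp
  · rintro ⟨p, hp, rfl⟩
    intro V hV
    rcases V.mem_or_inv_mem T with hTV | hTV
    · exact h1.eta_mem V hV hTV (DoubleCover.aeval_mem V hV hTV p)
    · rw [eta_change ht hY0 hg]
      apply h2.eta_mem V hV hTV
      have hp' : p.natDegree ≤ g - 1 := by
        by_cases hp0 : p = 0
        · rw [hp0]; simp
        · rw [degree_eq_natDegree hp0] at hp
          have : p.natDegree < g := by exact_mod_cast hp
          omega
      have : aeval T p * T⁻¹ ^ (g - 1) = aeval T⁻¹ (reflect (g - 1) p) := by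
        rw [← aeval_inv_reflect hT hp', inv_pow]
        field_simp
      rw [this]
      exact neg_mem (DoubleCover.aeval_mem V hV hTV _)

/-- The genus of the function field of `Y ^ 2 = α T ^ (2 g + 2) + β T` is `g`. -/
theorem genus_eq [CharZero k] (hg : 1 ≤ g) (hα : α ≠ 0) (hβ : β ≠ 0)
    (ht : Transcendental k T)
    (hY : Y ^ 2 = algebraMap k K α * T ^ (2 * g + 2) + algebraMap k K β * T)
    (gen : ∀ z : K, ∃ p q r : k[X], r ≠ 0 ∧ z * aeval T r = aeval T p + aeval T q * Y) :
    genus k K = (g : Cardinal) := by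
  have h1 := doubleCover_fin (g := g) (α := α) hβ ht hY gen
  let φ : degreeLT k g →ₗ[k] Ω[K⁄k] :=
    { toFun := fun p => aeval T (p : k[X]) • (Y⁻¹ • D k K T)
      map_add' := fun p q => by
        simp only [Submodule.coe_add, map_add, add_smul]
      map_smul' := fun c p => by
        simp only [Submodule.coe_smul, map_smul, RingHom.id_apply, smul_assoc] }
  have hφ : Function.Injective φ := by
    intro p q hpq
    have : (aeval T (p : k[X]) - aeval T (q : k[X])) • (Y⁻¹ • D k K T) = 0 := by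
      rw [sub_smul]; exact sub_eq_zero.mpr hpq
    rcases smul_eq_zero.mp this with h | h
    · exact Subtype.ext (h1.aeval_inj (sub_eq_zero.mp h))
    · exact absurd h h1.eta_ne_zero
  have hr : LinearMap.range φ = firstKind k K := by
    ext ω
    rw [firstKind_eq hg hα hβ ht hY gen]
    constructor
    · rintro ⟨p, rfl⟩
      exact ⟨p, mem_degreeLT.mp p.2, rfl⟩
    · rintro ⟨p, hp, rfl⟩
      exact ⟨⟨p, mem_degreeLT.mpr hp⟩, rfl⟩
  unfold genus
  rw [← hr, rank_range_of_injective φ hφ, (degreeLTEquiv k g).rank_eq, rank_fin_fun]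

end main

end Pool.Agent.MP_e04167_ag
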