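import Pool.Agent.Lib.MP_e04167_ag.Defs

/-!
# The genus of the double cover `Y ^ 2 = α T ^ (2 g + 2) + β T`
-/

open Polynomial

namespace Pool.Agent.MP_e04167_ag

lemma sq_dvd_aux {k : Type} [Field k] {f Q R : k[X]} (hf : Squarefree f) (hR : R ≠ 0)
    (h : R ^ 2 ∣ Q ^ 2 * f) : R ∣ Q := by
  classical
  obtain ⟨R', hR'⟩ := EuclideanDomain.gcd_dvd_left R Q
  obtain ⟨Q', hQ'⟩ := EuclideanDomain.gcd_dvd_right R Q
  set D := EuclideanDomain.gcd R Q with hD
  have hD0 : D ≠ 0 := fun h0 => hR (by rw [hR', h0, zero_mul])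
  have hco : IsCoprime R' Q' := by
    have := EuclideanDomain.gcd_eq_gcd_ab R Q
    rw [← hD] at this
    refine ⟨EuclideanDomain.gcdA R Q, EuclideanDomain.gcdB R Q, ?_⟩
    apply mul_left_cancel₀ hD0
    calc D * (EuclideanDomain.gcdA R Q * R' + EuclideanDomain.gcdB R Q * Q')
        = (D * R') * EuclideanDomain.gcdA R Q + (D * Q') * EuclideanDomain.gcdB R Q := by ring
      _ = R * EuclideanDomain.gcdA R Q + Q * EuclideanDomain.gcdB R Q := by rw [← hR', ← hQ']
      _ = D * 1 := by rw [mul_one, ← this]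
  have h2 : R' ^ 2 ∣ Q' ^ 2 * f := by
    have h3 : D ^ 2 * R' ^ 2 ∣ D ^ 2 * (Q' ^ 2 * f) := by
      have e1 : D ^ 2 * R' ^ 2 = R ^ 2 := by rw [← mul_pow, ← hR']
      have e2 : D ^ 2 * (Q' ^ 2 * f) = Q ^ 2 * f := by rw [← mul_assoc, ← mul_pow, ← hQ']
      rw [e1, e2]; exact h
    exact (mul_dvd_mul_iff_left (pow_ne_zero 2 hD0)).mp h3
  have h4 : R' ^ 2 ∣ f := (IsCoprime.pow hco).dvd_of_dvd_mul_left h2
  have h5 : IsUnit R' := hf R' (by rwa [← sq])
  rw [hR']
  obtain ⟨u, hu⟩ := h5
  refine ⟨(↑u⁻¹ : k[X]) * Q', ?_⟩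
  rw [hQ', ← hu]
  have := u.mul_inv
  calc D * Q' = D * (↑u * ↑u⁻¹) * Q' := by rw [this]; ring
    _ = D * ↑u * (↑u⁻¹ * Q') := by ring

/-- An abstract presentation of a double cover of the line. -/
structure DoubleCover (k K : Type) [Field k] [Field K] [Algebra k K] (T Y : K) (f : k[X]) :
    Prop where
  eq : Y ^ 2 = aeval T f
  trans : Transcendental k T
  nonsq : ∀ p q : k[X], p ^ 2 = q ^ 2 * f → q = 0
  sqf : IsCoprime f (derivative f)
  gen : ∀ z : K, ∃ p q r : k[X], r ≠ 0 ∧ z * aeval T r = aeval T p + aeval T q * Y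

namespace DoubleCover

variable {k K : Type} [Field k] [Field K] [Algebra k K]
variable {T Y : K} {f : k[X]} (h : DoubleCover k K T Y f)
include h

lemma aeval_inj {p q : k[X]} (e : aeval T p = aeval T q) : p = q :=
  transcendental_iff_injective.mp h.trans e

lemma aeval_ne_zero {p : k[X]} (e : p ≠ 0) : aeval T p ≠ 0 := fun h0 =>
  e (h.aeval_inj (by rw [h0, map_zero]))

lemma f_ne_zero : f ≠ 0 := by
  rintro rfl
  have := h.nonsq 0 1 (by simp)
  exact one_ne_zero this

lemma Y_ne_zero : Y ≠ 0 := by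
  intro h0
  have := h.eq
  rw [h0] at this
  exact h.aeval_ne_zero h.f_ne_zero (by rw [← this]; simp)

lemma uniq_zero {p q : k[X]} (e : aeval T p + aeval T q * Y = 0) : p = 0 ∧ q = 0 := by
  have e1 : aeval T (p ^ 2) = aeval T (q ^ 2 * f) := by
    have : aeval T p = - (aeval T q * Y) := by linear_combination e
    simp only [map_pow, map_mul, ← h.eq, this]; ring
  have hq := h.nonsq p q (h.aeval_inj e1)
  subst hq
  simp only [map_zero, zero_mul, add_zero] at e
  exact ⟨h.aeval_inj (by rw [e, map_zero]), rfl⟩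

lemma uniq {p q p' q' : k[X]} (e : aeval T p + aeval T q * Y = aeval T p' + aeval T q' * Y) :
    p = p' ∧ q = q' := by
  have := h.uniq_zero (p := p - p') (q := q - q') (by simp only [map_sub]; linear_combination e)
  exact ⟨sub_eq_zero.mp this.1, sub_eq_zero.mp this.2⟩

lemma isIntegral_of (p q : k[X]) :
    (aeval T : k[X] →ₐ[k] K).toRingHom.IsIntegralElem (aeval T p + aeval T q * Y) := by
  let : Algebra k[X] K := (aeval T : k[X] →ₐ[k] K).toRingHom.toAlgebra
  change IsIntegral k[X] _
  have h1 : ∀ p : k[X], IsIntegral k[X] (aeval T p) := fun p => isIntegral_algebraMap (x := p)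
  have h2 : IsIntegral k[X] Y := by
    apply IsIntegral.of_pow (n := 2) (by norm_num)
    rw [h.eq]; exact h1 f
  exact (h1 p).add ((h1 q).mul h2)

lemma exists_of_isIntegral [CharZero k] {z : K}
    (hz : (aeval T : k[X] →ₐ[k] K).toRingHom.IsIntegralElem z) :
    ∃ p q : k[X], z = aeval T p + aeval T q * Y := by
  let : Algebra k[X] K := (aeval T : k[X] →ₐ[k] K).toRingHom.toAlgebra
  have hz' : IsIntegral k[X] z := hz
  have halg : ∀ p : k[X], algebraMap k[X] K p = aeval T p := fun p => rfl
  have : FaithfulSMul k[X] K := by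
    rw [faithfulSMul_iff_algebraMap_injective]
    intro p q e
    exact h.aeval_inj e
  have : Module.IsTorsionFree k[X] K := inferInstance
  obtain ⟨P, Q, R, hR, hzR⟩ := h.gen z
  have hR' := h.aeval_ne_zero hR
  obtain ⟨a2, ha2⟩ : ∃ a2, a2 = R ^ 2 := ⟨_, rfl⟩
  obtain ⟨a1, ha1⟩ : ∃ a1, a1 = 2 * P * R := ⟨_, rfl⟩
  obtain ⟨a0, ha0⟩ : ∃ a0, a0 = P ^ 2 - Q ^ 2 * f := ⟨_, rfl⟩
  have ha2' : a2 ≠ 0 := by rw [ha2]; exact pow_ne_zero 2 hR
  let g : k[X][X] := C a2 * X ^ 2 - C a1 * X + C a0
  have hg : aeval z g = 0 := by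
    simp only [g, map_add, map_sub, map_mul, map_pow, aeval_C, aeval_X, halg, map_ofNat, ha0, ha1,
      ha2, ← h.eq]
    have e1 : (z * aeval T R - aeval T P) ^ 2 = (aeval T Q * Y) ^ 2 := by rw [hzR]; ring
    linear_combination e1
  have hdvd := minpoly.isIntegrallyClosed_dvd hz' hg
  have hmon := minpoly.monic hz'
  obtain ⟨c, hc⟩ := hdvd
  have hgdeg : g.natDegree = 2 := by
    simp only [g]
    compute_degree!
  have hg0 : g ≠ 0 := by
    intro h0; rw [h0] at hgdeg; simp at hgdeg
  have hdeg : (minpoly k[X] z).natDegree + c.natDegree = 2 := by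
    rw [← hgdeg, hc, hmon.natDegree_mul' ]
    rintro rfl
    rw [mul_zero] at hc
    exact hg0 hc
  have hpos := minpoly.natDegree_pos hz'
  rcases Nat.lt_or_ge (minpoly k[X] z).natDegree 2 with h1 | h2
  · have h1 : (minpoly k[X] z).natDegree = 1 := by omega
    rw [minpoly.natDegree_eq_one_iff] at h1
    obtain ⟨p, hp⟩ := h1
    exact ⟨p, 0, by rw [← hp, halg]; simp⟩
  · have h2 : (minpoly k[X] z).natDegree = 2 := by omega
    have hc0 : c.natDegree = 0 := by omega
    obtain ⟨c0, rfl⟩ := natDegree_eq_zero.mp hc0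
    have hcoef : ∀ i, g.coeff i = (minpoly k[X] z).coeff i * c0 := by
      intro i; rw [hc, coeff_mul_C]
    have e2 : g.coeff 2 = R ^ 2 := by
      rw [← ha2]; simp [g]
    have e1 : g.coeff 1 = - (2 * P * R) := by
      rw [← ha1]; simp [g, coeff_C, coeff_X_pow]
    have e0 : g.coeff 0 = P ^ 2 - Q ^ 2 * f := by
      rw [← ha0]; simp [g, coeff_X, coeff_C]
    have m2 : (minpoly k[X] z).coeff 2 = 1 := by rw [← h2]; exact hmon.coeff_natDegree
    have hc0 : c0 = R ^ 2 := by rw [← e2, hcoef, m2, one_mul]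
    have d1 : R ∣ 2 * P := by
      have := hcoef 1
      rw [e1, hc0] at this
      refine ⟨- (minpoly k[X] z).coeff 1, ?_⟩
      apply mul_right_cancel₀ hR
      linear_combination - this
    have d2 : R ∣ P := by
      have hu : IsUnit (2 : k[X]) := by
        have : (2 : k[X]) = C (2 : k) := (C_ofNat 2).symm
        rw [this]; exact isUnit_C.mpr (IsUnit.mk0 _ two_ne_zero)
      exact (hu.dvd_mul_left).mp d1
    have d3 : R ^ 2 ∣ Q ^ 2 * f := by
      have := hcoef 0
      rw [e0, hc0] at this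
      obtain ⟨P', hP'⟩ := d2
      refine ⟨P' ^ 2 - (minpoly k[X] z).coeff 0, ?_⟩
      rw [hP'] at this
      linear_combination - this
    have d4 : R ∣ Q := sq_dvd_aux (Separable.squarefree h.sqf) hR d3
    obtain ⟨p, hp⟩ := d2
    obtain ⟨q, hq⟩ := d4
    refine ⟨p, q, ?_⟩
    apply mul_right_cancel₀ hR'
    rw [hzR, hp, hq, map_mul, map_mul]; ring

omit h in
lemma aeval_mem (V : ValuationSubring K) (hV : ∀ c : k, algebraMap k K c ∈ V) (hT : T ∈ V)
    (p : k[X]) : aeval T p ∈ V := by
  induction p using Polynomial.induction_on' with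
  | add p q hp hq => rw [map_add]; exact V.add_mem _ _ hp hq
  | monomial n a =>
    rw [aeval_monomial]
    exact V.mul_mem _ _ (hV a) (pow_mem hT n)

lemma Y_mem (V : ValuationSubring K) (hV : ∀ c : k, algebraMap k K c ∈ V) (hT : T ∈ V) :
    Y ∈ V := by
  rcases V.mem_or_inv_mem Y with hY | hY
  · exact hY
  · by_cases hY0 : Y = 0
    · rw [hY0]; exact V.zero_mem
    · have : Y = Y ^ 2 * Y⁻¹ := by field_simp
      rw [this, h.eq]
      exact V.mul_mem _ _ (aeval_mem V hV hT f) hY

lemma exists_frac [CharZero k] (V : ValuationSubring K) (hV : ∀ c : k, algebraMap k K c ∈ V)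
    (hT : T ∈ V) {z : K} (hz : z ∈ V) :
    ∃ p q p' q' : k[X], (aeval T p' + aeval T q' * Y)⁻¹ ∈ V ∧
      aeval T p' + aeval T q' * Y ≠ 0 ∧
      z * (aeval T p' + aeval T q' * Y) = aeval T p + aeval T q * Y := by
  let : Algebra k[X] K := (aeval T : k[X] →ₐ[k] K).toRingHom.toAlgebra
  have halg : ∀ p : k[X], algebraMap k[X] K p = aeval T p := fun p => rfl
  have : FaithfulSMul k[X] K := by
    rw [faithfulSMul_iff_algebraMap_injective]
    intro p q e
    exact h.aeval_inj e
  let := FractionRing.liftAlgebra k[X] K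
  have : FiniteDimensional (FractionRing k[X]) K := by
    refine Module.finite_def.mpr (Submodule.fg_def.mpr ⟨{1, Y}, by simp, ?_⟩)
    rw [eq_top_iff]
    rintro z -
    obtain ⟨p, q, r, hr, hz⟩ := h.gen z
    have hr' := h.aeval_ne_zero hr
    have e : z = (algebraMap k[X] (FractionRing k[X]) p / algebraMap k[X] (FractionRing k[X]) r)
          • (1 : K)
        + (algebraMap k[X] (FractionRing k[X]) q / algebraMap k[X] (FractionRing k[X]) r) • Y := by
      rw [Algebra.smul_def, Algebra.smul_def, map_div₀, map_div₀, ← IsScalarTower.algebraMap_apply,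
        ← IsScalarTower.algebraMap_apply, ← IsScalarTower.algebraMap_apply, halg, halg, halg]
      field_simp
      linear_combination hz
    rw [e]
    apply Submodule.add_mem
    · exact Submodule.smul_mem _ _ (Submodule.subset_span (by simp))
    · exact Submodule.smul_mem _ _ (Submodule.subset_span (by simp))
  have hD : IsDedekindDomain (integralClosure k[X] K) :=
    integralClosure.isDedekindDomain k[X] (FractionRing k[X]) K
  have hF : IsFractionRing (integralClosure k[X] K) K :=
    integralClosure.isFractionRing_of_finite_extension (FractionRing k[X]) K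
  have hBV : ∀ b : integralClosure k[X] K, (b : K) ∈ V := by
    intro b
    obtain ⟨p, q, hpq⟩ := h.exists_of_isIntegral b.2
    rw [hpq]
    exact V.add_mem _ _ (aeval_mem V hV hT p) (V.mul_mem _ _ (aeval_mem V hV hT q)
      (h.Y_mem V hV hT))
  let φ : integralClosure k[X] K →+* V :=
    { toFun := fun b => ⟨b, hBV b⟩, map_one' := rfl, map_mul' := fun _ _ => rfl,
      map_zero' := rfl, map_add' := fun _ _ => rfl }
  let P : Ideal (integralClosure k[X] K) := (IsLocalRing.maximalIdeal V).comap φ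
  have hPp : P.IsPrime := Ideal.comap_isPrime φ _
  have key : ∃ b s : integralClosure k[X] K, s ∉ P ∧ z * s = b := by
    obtain ⟨b1, b2, hb2, hb⟩ := IsFractionRing.div_surjective (A := integralClosure k[X] K) z
    have hb2' : (b2 : K) ≠ 0 := by
      intro h0
      exact nonZeroDivisors.ne_zero hb2 (Subtype.ext h0)
    have hb' : z * b2 = b1 := by
      rw [← hb]
      change (b1 : K) / (b2 : K) * b2 = b1
      field_simp
    by_cases hP : P = ⊥
    · refine ⟨b1, b2, ?_, hb'⟩
      rw [hP, Ideal.mem_bot]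
      exact nonZeroDivisors.ne_zero hb2
    · have := IsLocalization.AtPrime.isDiscreteValuationRing_of_dedekind_domain
        (integralClosure k[X] K) hP (Localization.AtPrime P)
      have hvr : ValuationRing (Localization.AtPrime P) := inferInstance
      have hpvr : PreValuationRing (Localization.AtPrime P) := hvr.toPreValuationRing
      obtain ⟨c, hc⟩ := ValuationRing.cond (algebraMap _ (Localization.AtPrime P) b1)
        (algebraMap _ (Localization.AtPrime P) b2)
      obtain ⟨c1, s, rfl⟩ := IsLocalization.exists_mk'_eq P.primeCompl c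
      have hinj : Function.Injective
          (algebraMap (integralClosure k[X] K) (Localization.AtPrime P)) :=
        IsLocalization.injective (Localization.AtPrime P) P.primeCompl_le_nonZeroDivisors
      rcases hc with hc | hc
      · -- b1 * c1 = b2 * s
        have e1 : b1 * c1 = b2 * s := by
          apply hinj
          rw [map_mul, map_mul, ← hc, mul_assoc, IsLocalization.mk'_spec]
        have e2 : (b1 : K) * (c1 : K) = b2 * (s : integralClosure k[X] K) :=
          congrArg Subtype.val e1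
        by_cases hc1 : c1 ∈ P
        · exfalso
          have e3 : z * c1 = (s : integralClosure k[X] K) := by
            apply mul_left_cancel₀ hb2'
            rw [← e2, ← hb']; ring
          have hs2 : (s : integralClosure k[X] K) ∈ P := by
            change φ s ∈ IsLocalRing.maximalIdeal V
            have : φ s = (⟨z, hz⟩ : V) * φ c1 := Subtype.ext e3.symm
            rw [this]
            exact Ideal.mul_mem_left _ _ hc1
          exact s.2 hs2
        · refine ⟨s, c1, hc1, ?_⟩
          apply mul_left_cancel₀ hb2'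
          rw [← e2, ← hb']; ring
      · have e1 : b2 * c1 = b1 * s := by
          apply hinj
          rw [map_mul, map_mul, ← hc, mul_assoc, IsLocalization.mk'_spec]
        have e2 : (b2 : K) * (c1 : K) = b1 * (s : integralClosure k[X] K) :=
          congrArg Subtype.val e1
        refine ⟨c1, s, s.2, ?_⟩
        apply mul_left_cancel₀ hb2'
        rw [e2, ← hb']; ring
  obtain ⟨b, s, hs, hbs⟩ := key
  obtain ⟨p, q, hpq⟩ := h.exists_of_isIntegral b.2
  obtain ⟨p', q', hpq'⟩ := h.exists_of_isIntegral s.2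
  have hsu : IsUnit (φ s) := by
    by_contra hc
    exact hs ((IsLocalRing.mem_maximalIdeal _).mpr hc)
  refine ⟨p, q, p', q', ?_, ?_, ?_⟩
  · rw [← hpq']
    obtain ⟨u, hu⟩ := hsu
    have e1 : (s : K) * ((u⁻¹ : Vˣ) : V) = 1 := by
      have := congrArg (Subtype.val) u.mul_inv
      rw [hu] at this
      exact this
    have e2 : (s : K)⁻¹ = ((u⁻¹ : Vˣ) : V) := inv_eq_of_mul_eq_one_right e1
    rw [e2]; exact Subtype.property _
  · rw [← hpq']
    intro h0
    have : φ s = 0 := Subtype.ext h0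
    rw [this] at hsu
    exact not_isUnit_zero hsu
  · rw [← hpq', ← hpq, hbs]

/-- A quantity contained in all valuation rings that contain `k` and `T` is integral. -/
lemma exists_of_forall_mem [CharZero k] {z : K}
    (hz : ∀ V : ValuationSubring K, (∀ c : k, algebraMap k K c ∈ V) → T ∈ V → z ∈ V) :
    ∃ p q : k[X], z = aeval T p + aeval T q * Y := by
  apply h.exists_of_isIntegral
  have h1 : z ∈ (⨅ V : {V : ValuationSubring K //
      (Set.range (aeval T : k[X] →ₐ[k] K)) ⊆ V.toSubring}, V.1.toSubring) := by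
    rw [Subring.mem_iInf]
    rintro ⟨V, hV⟩
    apply hz V
    · intro c
      exact hV ⟨C c, by simp⟩
    · exact hV ⟨X, by simp⟩
  rw [iInf_valuationSubring_superset] at h1
  have h2 : IsIntegral (Subring.closure (Set.range (aeval T : k[X] →ₐ[k] K))) z := h1
  obtain ⟨F, hF, hF0⟩ := h2
  let R0 : Subring K := (aeval T : k[X] →ₐ[k] K).toRingHom.range
  have hR0 : Subring.closure (Set.range (aeval T : k[X] →ₐ[k] K)) ≤ R0 := by
    rw [Subring.closure_le]
    rintro _ ⟨p, rfl⟩
    exact ⟨p, rfl⟩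
  have h3 : IsIntegral R0 z := by
    refine ⟨F.map (Subring.inclusion hR0), hF.map _, ?_⟩
    rw [eval₂_map]
    exact hF0
  obtain ⟨G, hG, hG0⟩ := h3
  have hsurj : Function.Surjective (aeval T : k[X] →ₐ[k] K).toRingHom.rangeRestrict :=
    RingHom.rangeRestrict_surjective _
  obtain ⟨H, hH, -, hHm⟩ := Polynomial.lifts_and_natDegree_eq_and_monic
    (f := (aeval T : k[X] →ₐ[k] K).toRingHom.rangeRestrict) (p := G)
    ((Polynomial.mem_lifts _).mpr (Polynomial.map_surjective _ hsurj G)) hG
  refine ⟨H, hHm, ?_⟩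
  rw [← hH, eval₂_map] at hG0
  exact hG0

open KaehlerDifferential

omit h in
lemma D_aeval (p : k[X]) : D k K (aeval T p) = aeval T (derivative p) • D k K T := by
  rw [Derivation.map_aeval]

lemma D_Y : (2 : K) • D k K Y = (aeval T (derivative f) * Y⁻¹) • D k K T := by
  have h1 : D k K (Y ^ 2) = aeval T (derivative f) • D k K T := by rw [h.eq, D_aeval]
  rw [Derivation.leibniz_pow] at h1
  have hY := h.Y_ne_zero
  have h2 : (2 : K) • D k K Y = Y⁻¹ • (2 • Y ^ (2 - 1) • D k K Y) := by
    simp only [Nat.add_one_sub_one, pow_one]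
    rw [smul_comm 2 Y, smul_smul, inv_mul_cancel₀ hY, one_smul, ofNat_smul_eq_nsmul]
  rw [h2, h1, smul_smul, mul_comm]

variable [CharZero k]

lemma D_lin (p q : k[X]) : D k K (aeval T p + aeval T q * Y) =
    (aeval T (derivative p) * Y + aeval T (derivative q) * Y ^ 2 +
      (algebraMap k K (1/2)) * aeval T q * aeval T (derivative f)) • (Y⁻¹ • D k K T) := by
  have hY := h.Y_ne_zero
  have hch : CharZero K := charZero_of_injective_algebraMap (algebraMap k K).injective
  have h2 : (2 : K) ≠ 0 := two_ne_zero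
  have h2' : algebraMap k K (1/2) * 2 = 1 := by
    rw [map_div₀, map_one, map_ofNat]; field_simp
  have e1 : D k K Y = ((algebraMap k K (1/2)) * aeval T (derivative f) * Y⁻¹) • D k K T := by
    have := h.D_Y
    have e2 : D k K Y = (algebraMap k K (1/2)) • ((2 : K) • D k K Y) := by
      rw [smul_smul, h2', one_smul]
    rw [e2, this, smul_smul]
    congr 1; ring
  rw [map_add, Derivation.leibniz, D_aeval, D_aeval, e1, smul_smul, smul_smul, smul_smul,
    ← add_smul, ← add_smul]
  congr 1
  field_simp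
  ring

lemma D_mem (V : ValuationSubring K) (hV : ∀ c : k, algebraMap k K c ∈ V) (hT : T ∈ V)
    {z : K} (hz : z ∈ V) : ∃ v ∈ V, D k K z = v • (Y⁻¹ • D k K T) := by
  obtain ⟨p, q, p', q', h1, h2, h3⟩ := h.exists_frac V hV hT hz
  have hYV := h.Y_mem V hV hT
  have hp := aeval_mem V hV hT
  set s := aeval T p' + aeval T q' * Y with hs
  set b := aeval T p + aeval T q * Y with hb
  have e := congrArg (D k K) h3
  rw [Derivation.leibniz] at e
  have e2 : D k K z = s⁻¹ • (D k K b - z • D k K s) := by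
    rw [← e]
    rw [add_sub_cancel_left, smul_smul, inv_mul_cancel₀ h2, one_smul]
  rw [e2, hs, hb, h.D_lin, h.D_lin, smul_smul z, ← sub_smul, smul_smul]
  refine ⟨_, ?_, rfl⟩
  rw [← hs]
  refine V.mul_mem _ _ h1 (sub_mem ?_ (V.mul_mem _ _ hz ?_))
  · exact V.add_mem _ _ (V.add_mem _ _ (V.mul_mem _ _ (hp _) hYV)
      (V.mul_mem _ _ (hp _) (pow_mem hYV _)))
      (V.mul_mem _ _ (V.mul_mem _ _ (hV _) (hp _)) (hp _))
  · exact V.add_mem _ _ (V.add_mem _ _ (V.mul_mem _ _ (hp _) hYV)
      (V.mul_mem _ _ (hp _) (pow_mem hYV _)))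
      (V.mul_mem _ _ (V.mul_mem _ _ (hV _) (hp _)) (hp _))

lemma span_le (V : ValuationSubring K) (hV : ∀ c : k, algebraMap k K c ∈ V) (hT : T ∈ V)
    {ω : Ω[K⁄k]} (hω : ω ∈ differentialsOf k (V : Set K)) :
    ∃ v ∈ V, ω = v • (Y⁻¹ • D k K T) := by
  induction hω using AddSubgroup.closure_induction with
  | mem η hη =>
    obtain ⟨x, hx, y, hy, rfl⟩ := hη
    obtain ⟨v, hv, e⟩ := h.D_mem V hV hT hy
    exact ⟨x * v, V.mul_mem _ _ hx hv, by rw [e, mul_smul]⟩
  | zero => exact ⟨0, V.zero_mem, by rw [zero_smul]⟩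
  | add x y _ _ hx hy =>
    obtain ⟨v, hv, rfl⟩ := hx
    obtain ⟨w, hw, rfl⟩ := hy
    exact ⟨v + w, V.add_mem _ _ hv hw, by rw [add_smul]⟩
  | neg x _ hx =>
    obtain ⟨v, hv, rfl⟩ := hx
    exact ⟨-v, neg_mem hv, by rw [neg_smul]⟩

omit [CharZero k] in
lemma eta_mem (V : ValuationSubring K) (hV : ∀ c : k, algebraMap k K c ∈ V) (hT : T ∈ V)
    {v : K} (hv : v ∈ V) :
    v • (Y⁻¹ • D k K T) ∈ differentialsOf k (V : Set K) := by
  have hYV := h.Y_mem V hV hT
  have hp := aeval_mem V hV hT
  have hY := h.Y_ne_zero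
  obtain ⟨a, b, hab⟩ := h.sqf
  have e1 : v • (Y⁻¹ • D k K T) =
      (v * (aeval T a * Y)) • D k K T + (v * (2 * aeval T b)) • D k K Y := by
    have h1 : (v * (2 * aeval T b)) • D k K Y = (v * aeval T b) • ((2 : K) • D k K Y) := by
      rw [smul_smul]; congr 1; ring
    rw [h1, h.D_Y, smul_smul, smul_smul, ← add_smul]
    congr 1
    have h2 := congrArg (aeval T) hab
    rw [map_add, map_mul, map_mul, ← h.eq, map_one] at h2
    field_simp
    linear_combination (- v) * h2
  have h2V : (2 : K) ∈ V := by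
    have := hV 2
    rwa [map_ofNat] at this
  rw [e1]
  apply AddSubgroup.add_mem
  · exact AddSubgroup.subset_closure
      ⟨_, V.mul_mem _ _ hv (V.mul_mem _ _ (hp _) hYV), T, hT, rfl⟩
  · exact AddSubgroup.subset_closure
      ⟨_, V.mul_mem _ _ hv (V.mul_mem _ _ h2V (hp _)), Y, hYV, rfl⟩

/-- The differential `dT / Y` spans `Ω[K/k]`. -/
lemma exists_smul_eta (ω : Ω[K⁄k]) : ∃ c : K, ω = c • (Y⁻¹ • D k K T) := by
  have hω : ω ∈ Submodule.span K (Set.range (D k K)) := by
    rw [span_range_derivation]; exact Submodule.mem_top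
  induction hω using Submodule.span_induction with
  | mem x hx =>
    obtain ⟨z, rfl⟩ := hx
    obtain ⟨v, -, hv⟩ := h.D_mem ⊤ (fun _ => ValuationSubring.mem_top _)
      (ValuationSubring.mem_top _) (ValuationSubring.mem_top z)
    exact ⟨v, hv⟩
  | zero => exact ⟨0, by rw [zero_smul]⟩
  | add x y _ _ hx hy =>
    obtain ⟨v, rfl⟩ := hx
    obtain ⟨w, rfl⟩ := hy
    exact ⟨v + w, by rw [add_smul]⟩
  | smul a x _ hx =>
    obtain ⟨v, rfl⟩ := hx
    exact ⟨a * v, by rw [mul_smul]⟩

lemma eta_ne_zero : Y⁻¹ • D k K T ≠ 0 := by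
  intro h0
  have h1 : Subsingleton (Ω[K⁄k]) := by
    refine ⟨fun a b => ?_⟩
    obtain ⟨c, rfl⟩ := h.exists_smul_eta a
    obtain ⟨d, rfl⟩ := h.exists_smul_eta b
    rw [h0, smul_zero, smul_zero]
  have h2 : Algebra.FormallyUnramified k K := (Algebra.formallyUnramified_iff k K).mpr h1
  have h3 : Algebra.EssFiniteType k K := by
    classical
    rw [← IntermediateField.fg_top_iff]
    refine ⟨{T, Y}, ?_⟩
    rw [eq_top_iff]
    rintro z -
    obtain ⟨p, q, r, hr, hz⟩ := h.gen z
    have hr' := h.aeval_ne_zero hr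
    have hT : T ∈ IntermediateField.adjoin k (({T, Y} : Finset K) : Set K) :=
      IntermediateField.subset_adjoin _ _ (by simp)
    have hY : Y ∈ IntermediateField.adjoin k (({T, Y} : Finset K) : Set K) :=
      IntermediateField.subset_adjoin _ _ (by simp)
    have hp : ∀ p : k[X], aeval T p ∈ IntermediateField.adjoin k (({T, Y} : Finset K) : Set K) := by
      intro p
      induction p using Polynomial.induction_on' with
      | add p q hp hq => rw [map_add]; exact add_mem hp hq
      | monomial n a =>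
        rw [aeval_monomial]
        exact mul_mem (IntermediateField.algebraMap_mem _ a) (pow_mem hT n)
    have e : z = (aeval T p + aeval T q * Y) * (aeval T r)⁻¹ := by
      rw [← hz]; field_simp
    rw [e]
    exact mul_mem (add_mem (hp p) (mul_mem (hp q) hY)) (inv_mem (hp r))
  have h4 : Module.Finite k K := Algebra.FormallyUnramified.finite_of_free k K
  exact h.trans (Algebra.IsAlgebraic.isAlgebraic T)

end DoubleCover

end Pool.Agent.MP_e04167_ag
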